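import Pool.Agent.SWT75.Four
import Pool.Agent.SWT89.Four
import Pool.Agent.SWT84.Loop

/-!
# The functional with two opened edges
-/

set_option autoImplicit false

namespace Pool.Agent.SWT75

open Equiv Pool.Agent.SWT49 Pool.Agent.SWT80 Pool.Agent.SWT93 Pool.Agent.SWT65 Pool.Agent.SWT89

variable {M : Type} [AddCommGroup M]

/-- **M6b, M6c.** -/
theorem allHubs (hE : S_ext M) (h2 : ∀ v : M, v + v = 0 → v = 0) : S_allHubs M := by
  intro n h4 hev hmod c W₂ _ hW hS hH
  have hA : HubF (at3 W₂) := hubF_of hW hS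
  have hEP : ExtP M (n + 1 + 2 + 2) := extP_of hE (by omega) (by omega)
  choose F hF using fun k : Fin 4 => exists_ext hEP k hA
  have hX : Ext4 W₂ F :=
    { rel := fun s => (hubAt_of hA (hF s)).rel
      val := fun s V _ G h k => (hubAt_of hA (hF s)).wheel V G h k
      tv := fun s V _ G h x y z => (hubAt_of hA (hF s)).tv V G h x y z }
  intro V _ G h k hO hN
  have key := fun s => four_hubs h2 hev (by omega) hW hH hX s V G h k hO hN
  have k1 : at3 W₂ V G (G.e h) = at3 W₂ V G h := key 1
  have k2 : at3 W₂ V G k = at3 W₂ V G h := key 2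
  have k3 : at3 W₂ V G (G.e k) = at3 W₂ V G h := key 3
  exact ⟨k2.symm, k1.trans k2.symm, k3.trans k2.symm⟩

/-- **M6.** -/
theorem pair (h3 : ∀ v : M, v + v + v = 0) : S_pair M := by
  have h2 : ∀ v : M, v + v = 0 → v = 0 := by
    intro v hv
    have h := h3 v
    rw [hv, zero_add] at h
    exact h
  exact s_pair (SWT84.ext M h3) (SWT84.uniq M) (allHubs (SWT84.ext M h3) h2)

end Pool.Agent.SWT75
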