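import Pool.Agent.SWT75.Tr
import Pool.Agent.SWT67.AddSum

/-!
# The four positions of the hub give the same value
-/

set_option autoImplicit false

namespace Pool.Agent.SWT75

open Equiv Pool.Agent.SWT49 Pool.Agent.SWT80 Pool.Agent.SWT93 Pool.Agent.SWT65 Pool.Agent.SWT89

variable {V W M : Type} {m n : ℕ}

/-! ### A new leg next to a leg of a standard wheel -/

theorem c_ne' (i : Fin (m + 2)) : finRotate (m + 2) i ≠ i := by
  intro h
  have h1 := congrArg Fin.val h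
  rw [rot_val] at h1
  have := i.isLt
  split_ifs at h1 <;> omega

theorem wh_loop (w : Perm (Fin (m + 2))) (i : Fin (m + 2)) (u v : WH (m + 1))
    (hu : (Wh w).vt (i, 0) u) (hv : (Wh w).vt (i, 0) v) : (Wh w).e u ≠ v := by
  obtain ⟨b0, b1, b2⟩ := whR_neg (S := ∅) (Finset.notMem_empty i)
  have key : ∀ v, (Wh w).vt (i, 0) v → v = (i, 0) ∨ v = (i, 1) ∨ v = (i, 2) := by
    rintro v (h | h | h)
    · exact Or.inl h
    · exact Or.inr (Or.inl (h.trans b0))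
    · refine Or.inr (Or.inr (h.trans ?_))
      show whR ∅ (whR ∅ (i, 0)) = _
      rw [b0, b1]
  have h1 : v.1 = i ∧ v.2 ≠ 3 := by
    rcases key v hv with rfl | rfl | rfl
    · exact ⟨rfl, (by decide : (0 : Fin 4) ≠ 3)⟩
    · exact ⟨rfl, (by decide : (1 : Fin 4) ≠ 3)⟩
    · exact ⟨rfl, (by decide : (2 : Fin 4) ≠ 3)⟩
  rintro rfl
  obtain ⟨h1, h2⟩ := h1
  rcases key u hu with rfl | rfl | rfl
  · exact h2 rfl
  · exact c_ne' i h1
  · have h3 : (finRotate (m + 2)).symm i = i := h1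
    rw [Equiv.symm_apply_eq] at h3
    exact c_ne' i h3.symm

/-- A new leg next to a leg of a standard wheel. -/
theorem add_val0 [AddCommGroup M] {F : (V : Type) → Gr V (m + 3) → M} (hF : Rel F)
    (w : Perm (Fin (m + 2))) (i : Fin (m + 2)) (j : Fin (m + 3)) :
    F _ (add (Wh w) j (i, 0)) = F _ (Wh (insF w i.succ j)) -
      F _ (Wh (insF w ((finRotate (m + 2)).symm i).succ j)) := by
  obtain ⟨b0, b1, b2⟩ := whR_neg (S := ∅) (Finset.notMem_empty i)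
  have h1 := SWT67.add_sum hF (Wh w) j (i, 0) (by
    show whR ∅ (i, 0) ≠ (i, 0)
    rw [b0]
    exact fun h => absurd (congrArg Prod.snd h) (by decide : (1 : Fin 4) ≠ 0)) (wh_loop w i)
  have h2 : (Wh w).r (i, 0) = (i, 1) := b0
  have h3 : (Wh w).r (i, 1) = (i, 2) := b1
  have h4 : (Wh w).e ((finRotate (m + 2)).symm i, 1) = (i, 2) := by
    show (finRotate (m + 2) ((finRotate (m + 2)).symm i), (2 : Fin 4)) = _
    rw [Equiv.apply_symm_apply]
  have h5 := SWT67.add_neg hF (Wh w) j ((finRotate (m + 2)).symm i, 1)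
  rw [h4] at h5
  rw [h2, h3, h5, add_val hF, add_val hF, neg_neg] at h1
  rw [← sub_eq_zero, ← h1]
  abel

/-! ### The functionals on the words -/

theorem exists_op (w : Perm (Fin (n + 4 + 1))) : ∃ (U : Type) (_ : Finite U) (G : Gr U (n + 1))
    (h k : U) (f : (U ⊕ Bool) ⊕ Bool ≃ WH (n + 4)), OW G h k ∧
      (opn2 G h k).map f = (Wh w : Gr (WH (n + 4)) (n + 1 + 2 + 2)) := by
  obtain ⟨U, hU, G, h, k, f, h1, h2, h3⟩ := SWT67.exists_opn2' (n := n + 1)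
    (Wh w : Gr (WH (n + 4)) (n + 1 + 2 + 2)) (wh_gconn w) (by omega)
  refine ⟨U, hU, G, h, k, f, ⟨?_, ?_, h1, h2⟩, h3⟩
  · exact one_of_map (f := f) (by rw [h3]; exact wh_one w)
  · intro i j hij
    apply wh_nocherry w i j
    have h4 := (SWT93.cherry_map f).2 hij
    rw [h3] at h4
    exact h4

section

variable [AddCommGroup M] {c : (V : Type) → Gr V (n + 1) → Fin n → M}
  {W₂ : (V : Type) → Gr V (n + 1 + 3) → M} {F : Fin 4 → (V : Type) → Gr V (n + 1 + 2 + 2) → M}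

/-- The values on the words. -/
def bb (F : Fin 4 → (V : Type) → Gr V (n + 1 + 2 + 2) → M) (s : Fin 4)
    (w : Perm (Fin (n + 4 + 1))) : M := F s (WH (n + 4)) (Wh w : Gr (WH (n + 4)) (n + 1 + 2 + 2))

theorem bb_smul (hE : Ext4 W₂ F) {w : Perm (Fin (n + 4 + 1))} {U : Type} [Finite U]
    {G : Gr U (n + 1)} {h k : U} {f : (U ⊕ Bool) ⊕ Bool ≃ WH (n + 4)}
    (hf : (opn2 G h k).map f = (Wh w : Gr (WH (n + 4)) (n + 1 + 2 + 2))) (s : Fin 4)
    (g : Perm (Fin (n + 1 + 2 + 2))) : bb F s (g * w) = F s _ (g • opn2 G h k) := by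
  have h1 : (Wh (g * w) : Gr (WH (n + 4)) (n + 1 + 2 + 2)) = (g • opn2 G h k).map f := by
    rw [← Gr.smul_map, hf]
    exact (smul_wh (m := n + 4) g w).symm
  unfold bb
  rw [h1, (hE.rel s).iso]

theorem bb_op (hE : Ext4 W₂ F) {w : Perm (Fin (n + 4 + 1))} {U : Type} [Finite U]
    {G : Gr U (n + 1)} {h k : U} {f : (U ⊕ Bool) ⊕ Bool ≃ WH (n + 4)}
    (hf : (opn2 G h k).map f = (Wh w : Gr (WH (n + 4)) (n + 1 + 2 + 2))) (hO : OW G h k)
    (s : Fin 4) : bb F s w = at3 W₂ U G (kap s G h k) := by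
  rw [← hE.val s U G h k hO.one hO.no]
  unfold bb
  rw [← hf, (hE.rel s).iso]

theorem bb_23 (hE : Ext4 W₂ F) (s : Fin 4) (w : Perm (Fin (n + 4 + 1))) :
    bb F s (pg 1 (swap 2 3) * w) = bb F (swap 2 3 s) w := by
  obtain ⟨U, hU, G, h, k, f, hO, hf⟩ := exists_op w
  rw [bb_op hE hf hO, ← kap_ek, ← hE.val s U G h _ hO.ek.one hO.ek.no,
    SWT67.opn2_ek hO.n1 hO.n2, (hE.rel s).iso, pg_23]
  exact bb_smul hE hf s _

theorem bb_01 (hE : Ext4 W₂ F) (s : Fin 4) (w : Perm (Fin (n + 4 + 1))) :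
    bb F s (pg 1 (swap 0 1) * w) = bb F (swap 0 1 s) w := by
  obtain ⟨U, hU, G, h, k, f, hO, hf⟩ := exists_op w
  rw [bb_op hE hf hO, ← kap_eh, ← hE.val s U G _ k hO.eh.one hO.eh.no,
    SWT67.opn2_eh, (hE.rel s).iso, pg_01]
  exact bb_smul hE hf s _

theorem bb_P (hE : Ext4 W₂ F) (s : Fin 4) (w : Perm (Fin (n + 4 + 1))) :
    bb F s (pg 1 (swap 0 2 * swap 1 3) * w) =
      bb F ((swap 0 2 * swap 1 3 : Perm (Fin 4)) s) w := by
  obtain ⟨U, hU, G, h, k, f, hO, hf⟩ := exists_op w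
  rw [bb_op hE hf hO, ← kap_comm, ← hE.val s U G k h hO.comm.one hO.comm.no,
    SWT67.opn2_comm G hO.n1 hO.n2, (hE.rel s).iso, pg_P]
  exact bb_smul hE hf s _

/-- The differences. -/
theorem bb_step (hE : Ext4 W₂ F) (hW : Hub c W₂) (s t : Fin 4) (w : Perm (Fin (n + 4 + 1)))
    (i : Fin n) : bb F s (pg (SWT49.s i) 1 * w) - bb F t (pg (SWT49.s i) 1 * w) =
      bb F s w - bb F t w := by
  obtain ⟨U, hU, G, h, k, f, hO, hf⟩ := exists_op w
  have key : ∀ s : Fin 4, bb F s w - bb F s (pg (SWT49.s i) 1 * w) = c U G i := by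
    intro s
    have hO' : OW (SWT49.s i • G) h k := by
      refine ⟨?_, ?_, hO.n1, hO.n2⟩
      · rw [SWT67.opn2_smul]
        exact one_smul' _ hO.one
      · rw [SWT67.opn2_smul]
        exact (SWT93.nocherry_smul _).2 hO.no
    obtain ⟨hx, h1⟩ := hO.cut s
    rw [bb_op hE hf hO, pg_g, bb_smul hE hf, ← SWT67.opn2_smul,
      hE.val s U _ h k hO'.one hO'.no, kap_e (G := G) (G' := SWT49.s i • G) rfl]
    exact hub_diff hW G hx h1 i
  have h1 := key s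
  have h2 := key t
  have h3 := h1.trans h2.symm
  have h4 : bb F s (pg (SWT49.s i) 1 * w) = bb F s w - c U G i := by
    rw [← h1]
    abel
  have h5 : bb F t (pg (SWT49.s i) 1 * w) = bb F t w - c U G i := by
    rw [← h2]
    abel
  rw [h4, h5]
  abel

theorem pg_mul (g g' : Perm (Fin (n + 1))) : pg (g * g') 1 = pg g 1 * pg g' 1 := by
  have h1 := pq_mul g g' (1 : Perm (Fin 4)) 1
  rw [mul_one] at h1
  exact h1.symm

theorem bb_inv (hE : Ext4 W₂ F) (hW : Hub c W₂) (s t : Fin 4) (w : Perm (Fin (n + 4 + 1)))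
    (g : Perm (Fin (n + 1))) : bb F s (pg g 1 * w) - bb F t (pg g 1 * w) =
      bb F s w - bb F t w := by
  refine perm_induction (P := fun g => bb F s (pg g 1 * w) - bb F t (pg g 1 * w) =
      bb F s w - bb F t w) ?_ ?_ g
  · have h1 : pg (1 : Perm (Fin (n + 1))) 1 = 1 := pq_one
    rw [h1, one_mul]
  · intro g i hg
    rw [pg_mul, mul_assoc, bb_step hE hW]
    exact hg

theorem bb_tv (hE : Ext4 W₂ F) (h1 : 1 ≤ n) (s : Fin 4) (w : Perm (Fin (n + 3 + 1))) :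
    bb F s (insF w (w⁻¹ (sp n 2)).succ 0) -
      bb F s (insF w ((finRotate (n + 3 + 1)).symm (w⁻¹ (sp n 2))).succ 0) +
    (bb F s (insF w (w⁻¹ (sp n 3)).succ 0) -
      bb F s (insF w ((finRotate (n + 3 + 1)).symm (w⁻¹ (sp n 3))).succ 0)) = 0 := by
  have h2 := SWT67.tv_add (n := n) (F s) (hE.rel s) (hE.tv s)
    (Wh w : Gr (WH (n + 3)) (n + 2 + 2)) (wh_one w) h1
  have key : ∀ r : Fin 4, F s _ (add (Wh w : Gr (WH (n + 3)) (n + 3 + 1)) 0 (w⁻¹ (sp n r), 0)) =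
      bb F s (insF w (w⁻¹ (sp n r)).succ 0) -
        bb F s (insF w ((finRotate (n + 3 + 1)).symm (w⁻¹ (sp n r))).succ 0) :=
    fun r => add_val0 (m := n + 2) (hE.rel s) w _ 0
  rw [← key 2, ← key 3]
  exact h2

/-- The hub at neighbours of different pairs. -/
theorem bb_adj0 (hE : Ext4 W₂ F) (hW : Hub c W₂) (hHi : Hi W₂) (w : Perm (Fin (n + 4 + 1)))
    (hw : w⁻¹ (sq n 2) = finRotate (n + 4 + 1) (w⁻¹ (sq n 0))) : bb F 0 w = bb F 2 w := by
  obtain ⟨U, hU, G, h, k, f, hO, hf⟩ := exists_op w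
  rw [bb_op hE hf hO, bb_op hE hf hO]
  have fe : ∀ v, f ((opn2 G h k).e v) = whE (f v) := by
    intro v
    rw [← Gr.map_e, hf]
    rfl
  have fr : ∀ v, f ((opn2 G h k).r v) = whR ∅ (f v) := by
    intro v
    rw [← Gr.map_r, hf]
    rfl
  have fl : ∀ i, f ((opn2 G h k).leg i) = (w⁻¹ i, 3) := by
    intro i
    rw [← Gr.map_leg, hf]
    rfl
  obtain ⟨b0, b1, b2⟩ : (∀ i : Fin (n + 4 + 1), whR ∅ (i, 0) = (i, 1)) ∧
      (∀ i : Fin (n + 4 + 1), whR ∅ (i, 1) = (i, 2)) ∧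
      ∀ i : Fin (n + 4 + 1), whR ∅ (i, 2) = (i, 0) :=
    ⟨fun i => (whR_neg (Finset.notMem_empty i)).1, fun i => (whR_neg (Finset.notMem_empty i)).2.1,
      fun i => (whR_neg (Finset.notMem_empty i)).2.2⟩
  have e1 : f (Sum.inl (Sum.inl h)) = (w⁻¹ (sq n 0), 0) := by
    rw [← SWT67.opn2_e_0 hO.n1 hO.n2, fe, ← SWT67.opn2_leg_0 (G := G) (h := h) (k := k), fl]
    rfl
  have e2 : f (Sum.inl (Sum.inl k)) = (w⁻¹ (sq n 2), 0) := by
    rw [← SWT67.opn2_e_2 (G := G) (h := h) (k := k), fe,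
      ← SWT67.opn2_leg_2 (G := G) (h := h) (k := k), fl]
    rfl
  have e3 : f ((opn2 G h k).e (Sum.inl (Sum.inl (G.r h)))) =
      f (Sum.inl (Sum.inl (G.r (G.r k)))) := by
    have r1 : f (Sum.inl (Sum.inl (G.r h))) = (w⁻¹ (sq n 0), 1) := by
      rw [← SWT67.opn2_r (G := G) (h := h) (k := k), fr, e1, b0]
    have r2 : f (Sum.inl (Sum.inl (G.r (G.r k)))) = (w⁻¹ (sq n 2), 2) := by
      rw [← SWT67.opn2_r (G := G) (h := h) (k := k), fr, ← SWT67.opn2_r (G := G) (h := h) (k := k),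
        fr, e2, b0, b1]
    rw [fe, r1, r2, hw]
    rfl
  have e4 := f.injective e3
  have e5 : G.e (G.r h) = G.r (G.r k) := by
    by_cases c1 : G.r h = h
    · rw [c1, SWT67.opn2_e_h G hO.n1 hO.n2] at e4
      exact absurd (Sum.inl.inj e4) Sum.inr_ne_inl
    by_cases c2 : G.r h = G.e h
    · rw [c2, SWT67.opn2_e_eh G hO.n1 hO.n2] at e4
      exact absurd (Sum.inl.inj e4) Sum.inr_ne_inl
    by_cases c3 : G.r h = k
    · rw [c3, SWT67.opn2_e_k] at e4
      exact absurd e4 Sum.inr_ne_inl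
    by_cases c4 : G.r h = G.e k
    · rw [c4, SWT67.opn2_e_ek G hO.n1 hO.n2] at e4
      exact absurd e4 Sum.inr_ne_inl
    rw [SWT67.opn2_e_o G hO.n1 hO.n2 c1 c2 c3 c4] at e4
    exact Sum.inl.inj (Sum.inl.inj e4)
  exact hub_adj hW hHi hO.one hO.no (y := G.r h) (Or.inl rfl) (Or.inr (Or.inr e5))

/-- The values on the words have the properties of `Wd`. -/
theorem wd (hE : Ext4 W₂ F) (hW : Hub c W₂) (hHi : Hi W₂) (h1 : 1 ≤ n) (hev : Even (n + 1)) :
    Wd (bb F) where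
  rot s w := rot_eq (m := n + 4) (F := F s) (hE.rel s) w
  refl s w := by
    have h2 := refl_eq (m := n + 4) (F := F s) (hE.rel s) w
    have h3 : (-1 : ℤ) ^ (n + 4 + 1) = 1 := by
      apply Even.neg_one_pow
      obtain ⟨a, ha⟩ := hev
      exact ⟨a + 2, by omega⟩
    rw [h3, one_smul] at h2
    exact h2
  inv s t w g := bb_inv hE hW s t w g
  sym01 s w := bb_01 hE s w
  sym23 s w := bb_23 hE s w
  symP s w := bb_P hE s w
  tv s w := bb_tv hE h1 s w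
  adj := by
    have red : ∀ π : Perm (Fin 4), (∀ u, π (π u) = u) →
        (∀ u w, bb F u (pg 1 π * w) = bb F (π u) w) → ∀ s t : Fin 4,
        (∀ w : Perm (Fin (n + 4 + 1)), w⁻¹ (sq n (π t)) =
          finRotate (n + 4 + 1) (w⁻¹ (sq n (π s))) → bb F (π s) w = bb F (π t) w) →
        ∀ w : Perm (Fin (n + 4 + 1)), w⁻¹ (sq n t) = finRotate (n + 4 + 1) (w⁻¹ (sq n s)) →
          bb F s w = bb F t w := by
      intro π h2 h3 s t h4 w h5
      have h6 : ∀ u, (pg (1 : Perm (Fin (n + 1))) π * w)⁻¹ (sq n (π u)) = w⁻¹ (sq n u) := by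
        intro u
        rw [pg_pos]
        congr 2
        exact π.symm_apply_apply u
      have h7 := h4 (pg 1 π * w) (by rw [h6, h6]; exact h5)
      rw [h3, h3, h2, h2] at h7
      exact h7
    have r01 := red (swap 0 1) (by decide) (fun u w => bb_01 hE u w)
    have r23 := red (swap 2 3) (by decide) (fun u w => bb_23 hE u w)
    have rP := red (swap 0 2 * swap 1 3) (by decide) (fun u w => bb_P hE u w)
    have q02 := bb_adj0 hE hW hHi
    have q12 := r01 1 2 q02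
    have q03 := r23 0 3 q02
    have q13 := r01 1 3 q03
    have q20 := rP 2 0 q02
    have q21 := rP 2 1 q03
    have q30 := rP 3 0 q12
    have q31 := rP 3 1 q13
    intro s t w hst hw
    have hcase : (s = 0 ∧ t = 2) ∨ (s = 0 ∧ t = 3) ∨ (s = 1 ∧ t = 2) ∨ (s = 1 ∧ t = 3) ∨
        (s = 2 ∧ t = 0) ∨ (s = 2 ∧ t = 1) ∨ (s = 3 ∧ t = 0) ∨ (s = 3 ∧ t = 1) := by
      clear hw
      revert s t
      decide
    rcases hcase with ⟨rfl, rfl⟩ | ⟨rfl, rfl⟩ | ⟨rfl, rfl⟩ | ⟨rfl, rfl⟩ | ⟨rfl, rfl⟩ |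
      ⟨rfl, rfl⟩ | ⟨rfl, rfl⟩ | ⟨rfl, rfl⟩
    · exact q02 w hw
    · exact q03 w hw
    · exact q12 w hw
    · exact q13 w hw
    · exact q20 w hw
    · exact q21 w hw
    · exact q30 w hw
    · exact q31 w hw

/-- **M6b, M6c.** The hub may be put at any of the four ends of the two opened edges. -/
theorem four_hubs (h2 : ∀ v : M, v + v = 0 → v = 0) (hev : Even (n + 1)) (h1 : 1 ≤ n)
    (hW : Hub c W₂) (hHi : Hi W₂) (hE : Ext4 W₂ F) (s : Fin 4) (V : Type) [Finite V]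
    (G : Gr V (n + 1)) (h k : V) (hO : One (opn2 G h k))
    (hN : SWT93.NoCherry (opn2 G h k)) : at3 W₂ V G (kap s G h k) = at3 W₂ V G h := by
  have h4 : ∀ s : Fin 4, at3 W₂ V G (kap s G h k) = F s _ (opn2 G h k) :=
    fun s => (hE.val s V G h k hO hN).symm
  obtain ⟨w, j, hw⟩ := val_wh (m := n + 4) (opn2 G h k) hO.conn (by omega) hO.card hN
  have h5 : ∀ s : Fin 4, F s _ (opn2 G h k) = (-1 : ℤ) ^ j • bb F s w :=
    fun s => hw M (F s) (hE.rel s)
  have h6 : at3 W₂ V G h = at3 W₂ V G (kap 0 G h k) := rfl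
  rw [h6, h4, h4, h5, h5, (wd hE hW hHi h1 hev).all h2 s w]

end

end Pool.Agent.SWT75
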