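import Pool.Agent.SWT75.Wh2

/-!
# A new leg on the edges of a standard wheel
-/

set_option autoImplicit false

namespace Pool.Agent.SWT75

open Equiv Pool.Agent.SWT49 Pool.Agent.SWT80 Pool.Agent.SWT93 Pool.Agent.SWT65

variable {V W M : Type} {m : ℕ}

/-- The letter `j` is inserted into the word `w` at the position `i`. -/
def insF (w : Perm (Fin m)) (i j : Fin (m + 1)) : Perm (Fin (m + 1)) :=
  (finSuccEquiv' i).trans ((Equiv.optionCongr w).trans (finSuccEquiv' j).symm)

theorem insF_at (w : Perm (Fin m)) (i j : Fin (m + 1)) : insF w i j i = j := by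
  simp [insF]

theorem insF_old (w : Perm (Fin m)) (i j : Fin (m + 1)) (k : Fin m) :
    insF w i j (i.succAbove k) = j.succAbove (w k) := by
  simp [insF]

theorem insF_inv_at (w : Perm (Fin m)) (i j : Fin (m + 1)) : (insF w i j)⁻¹ j = i := by
  rw [Perm.inv_eq_iff_eq, insF_at]

theorem insF_inv_old (w : Perm (Fin m)) (i j : Fin (m + 1)) (x : Fin m) :
    (insF w i j)⁻¹ (j.succAbove x) = i.succAbove (w⁻¹ x) := by
  rw [Perm.inv_eq_iff_eq, insF_old]
  congr 1
  exact (w.apply_symm_apply x).symm

/-- Every word arises by an insertion. -/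
theorem exists_insF (w : Perm (Fin (m + 1))) (i j : Fin (m + 1)) (h : w i = j) :
    ∃ w', w = insF w' i j := by
  obtain ⟨u, hu⟩ : ∃ u : Option (Fin m) ≃ Option (Fin m),
      u = (finSuccEquiv' i).symm.trans (Equiv.trans w (finSuccEquiv' j)) := ⟨_, rfl⟩
  refine ⟨Equiv.removeNone u, Equiv.ext fun x => ?_⟩
  rcases Fin.eq_self_or_eq_succAbove i x with rfl | ⟨k, rfl⟩
  · rw [insF_at, h]
  · rw [insF_old]
    rcases Fin.eq_self_or_eq_succAbove j (w (i.succAbove k)) with h1 | ⟨y, h1⟩
    · exact absurd (w.injective (h1.trans h.symm)) (Fin.succAbove_ne i k)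
    · have h2 : u (some k) = some y := by
        rw [hu]
        show finSuccEquiv' j (w ((finSuccEquiv' i).symm (some k))) = some y
        rw [finSuccEquiv'_symm_some, h1, finSuccEquiv'_succAbove]
      have h3 := Equiv.removeNone_some u ⟨y, h2⟩
      rw [h2] at h3
      rw [h1, Option.some.inj h3]

/-! ### The rotation and the insertion -/

theorem succAbove_val (p : Fin (m + 1)) (k : Fin m) :
    (p.succAbove k).val = if k.val < p.val then k.val else k.val + 1 := by
  by_cases h : k.val < p.val
  · rw [if_pos h, Fin.succAbove_of_castSucc_lt p k h]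
    rfl
  · rw [if_neg h, Fin.succAbove_of_le_castSucc p k (Fin.le_def.2 (by
      show p.val ≤ k.val
      omega))]
    rfl

theorem rot_val (i : Fin (m + 1)) :
    (finRotate (m + 1) i).val = if i.val = m then 0 else i.val + 1 := by
  rw [coe_finRotate]
  by_cases h : i = Fin.last m
  · rw [if_pos h, if_pos (by rw [h]; rfl)]
  · have h' : ¬ i.val = m := fun h' => h (Fin.ext h')
    rw [if_neg h, if_neg h']

/-- The rotation away from the new position. -/
theorem rot_old (i k : Fin (m + 1)) (h : k ≠ i) :
    finRotate (m + 2) (i.succ.succAbove k) = i.succ.succAbove (finRotate (m + 1) k) := by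
  apply Fin.ext
  rw [rot_val, succAbove_val, succAbove_val, rot_val, Fin.val_succ]
  have h1 : k.val ≠ i.val := fun h' => h (Fin.ext h')
  have h2 := i.isLt
  have h3 := k.isLt
  split_ifs <;> omega

/-- The new position follows the position `i`. -/
theorem rot_pre (i : Fin (m + 1)) : finRotate (m + 2) (i.succ.succAbove i) = i.succ := by
  apply Fin.ext
  rw [rot_val, succAbove_val, Fin.val_succ]
  have h2 := i.isLt
  split_ifs <;> omega

/-- The position after the new position. -/
theorem rot_new (i : Fin (m + 1)) :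
    finRotate (m + 2) i.succ = i.succ.succAbove (finRotate (m + 1) i) := by
  apply Fin.ext
  rw [rot_val, succAbove_val, rot_val, Fin.val_succ]
  have h2 := i.isLt
  split_ifs <;> omega

/-! ### The new leg -/

/-- The half-edges of the wheel with a new leg on the edge of `(i, 1)`. -/
def insM (p : Fin (m + 2)) : WH m ⊕ Fin 4 → WH (m + 1)
  | Sum.inl v => (p.succAbove v.1, v.2)
  | Sum.inr 0 => (p, 2)
  | Sum.inr 1 => (p, 1)
  | Sum.inr 2 => (p, 0)
  | Sum.inr 3 => (p, 3)

theorem insM_bij (p : Fin (m + 2)) : Function.Bijective (insM p) := by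
  have hinj : Function.Injective (insM p) := by
    have h0 : ∀ t : Fin 4, (insM p (Sum.inr t : WH m ⊕ Fin 4)).2 = (![2, 1, 0, 3] : Fin 4 → Fin 4) t := by
      refine t4 ?_ ?_ ?_ ?_ <;> rfl
    have h1' : ∀ t t' : Fin 4, (![2, 1, 0, 3] : Fin 4 → Fin 4) t = (![2, 1, 0, 3] : Fin 4 → Fin 4) t' →
        t = t' := by decide
    have h1 : ∀ t t' : Fin 4, insM p (Sum.inr t : WH m ⊕ Fin 4) = insM p (Sum.inr t') → t = t' := by
      intro t t' h
      apply h1'
      rw [← h0, ← h0, h]
    have h2 : ∀ t : Fin 4, (insM p (Sum.inr t : WH m ⊕ Fin 4)).1 = p := by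
      refine t4 ?_ ?_ ?_ ?_ <;> rfl
    rintro (v | t) (v' | t') h
    · have h3 : (p.succAbove v.1, v.2) = (p.succAbove v'.1, v'.2) := h
      have h4 : v.1 = v'.1 := Fin.succAbove_right_injective (congrArg Prod.fst h3)
      have h5 : v.2 = v'.2 := (Prod.mk.inj h3).2
      rw [Prod.ext h4 h5]
    · have h3 := congrArg Prod.fst h
      rw [h2] at h3
      exact absurd h3 (Fin.succAbove_ne p v.1)
    · have h3 := congrArg Prod.fst h
      rw [h2] at h3
      exact absurd h3.symm (Fin.succAbove_ne p v'.1)
    · rw [h1 t t' h]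
  refine (Fintype.bijective_iff_injective_and_card _).2 ⟨hinj, ?_⟩
  rw [Fintype.card_sum, Fintype.card_prod, Fintype.card_prod, Fintype.card_fin, Fintype.card_fin,
    Fintype.card_fin]
  ring

/-- **A new leg on the rim of a standard wheel.** -/
theorem add_wh (w : Perm (Fin (m + 1))) (i : Fin (m + 1)) (j : Fin (m + 2)) :
    (add (Wh w) j (i, 1)).map (Equiv.ofBijective (insM i.succ) (insM_bij i.succ)) =
      Whs (insF w i.succ j) {i.succ} := by
  refine Gr.map_eq ?_ ?_ ?_
  · show ∀ u, whE (insM i.succ u) = insM i.succ (addE (Wh w) (i, 1) u)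
    have he : (Wh w).e (i, 1) = (finRotate (m + 1) i, 2) := rfl
    rintro (v | t)
    · by_cases h1 : v = (i, 1)
      · rw [h1, addE_h]
        show (finRotate (m + 2) (i.succ.succAbove i), (2 : Fin 4)) = (i.succ, 2)
        rw [rot_pre]
      by_cases h2 : v = (Wh w).e (i, 1)
      · rw [h2, addE_eh, he]
        show ((finRotate (m + 2)).symm (i.succ.succAbove (finRotate (m + 1) i)), (1 : Fin 4)) =
          (i.succ, 1)
        rw [← rot_new, Equiv.symm_apply_apply]
      rw [addE_o _ h1 h2]
      rw [he] at h2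
      obtain ⟨k, t⟩ := v
      revert t
      refine t4 ?_ ?_ ?_ ?_
      · intro _ _
        rfl
      · intro h1 _
        have h3 : k ≠ i := fun h => h1 (by rw [h])
        show (finRotate (m + 2) (i.succ.succAbove k), (2 : Fin 4)) =
          (i.succ.succAbove (finRotate (m + 1) k), 2)
        rw [rot_old i k h3]
      · intro _ h2
        have h3 : (finRotate (m + 1)).symm k ≠ i := by
          intro h
          apply h2
          rw [← h, Equiv.apply_symm_apply]
        show ((finRotate (m + 2)).symm (i.succ.succAbove k), (1 : Fin 4)) =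
          (i.succ.succAbove ((finRotate (m + 1)).symm k), 1)
        have h4 := rot_old i _ h3
        rw [Equiv.apply_symm_apply] at h4
        rw [← h4, Equiv.symm_apply_apply]
      · intro _ _
        rfl
    · revert t
      refine t4 ?_ ?_ ?_ ?_
      · show ((finRotate (m + 2)).symm i.succ, (1 : Fin 4)) = (i.succ.succAbove i, 1)
        rw [(Equiv.symm_apply_eq _).2 (rot_pre i).symm]
      · show (finRotate (m + 2) i.succ, (2 : Fin 4)) =
          (i.succ.succAbove (finRotate (m + 1) i), 2)
        rw [rot_new]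
      · rfl
      · rfl
  · show ∀ u, whR {i.succ} (insM i.succ u) = insM i.succ (addR (Wh w) u)
    rintro (⟨k, t⟩ | t)
    · obtain ⟨a0, a1, a2⟩ := whR_neg (S := {i.succ}) (i := i.succ.succAbove k)
        (fun h => Fin.succAbove_ne _ _ (Finset.mem_singleton.1 h))
      obtain ⟨b0, b1, b2⟩ := whR_neg (Finset.notMem_empty k)
      show whR {i.succ} (i.succ.succAbove k, t) = insM i.succ (Sum.inl (whR ∅ (k, t)))
      revert t
      refine t4 ?_ ?_ ?_ ?_
      · rw [a0, b0]; rfl
      · rw [a1, b1]; rfl
      · rw [a2, b2]; rfl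
      · rfl
    · obtain ⟨a0, a1, a2⟩ := whR_pos (Finset.mem_singleton_self i.succ)
      revert t
      refine t4 ?_ ?_ ?_ ?_
      · exact a2
      · exact a1
      · exact a0
      · rfl
  · show ∀ x, ((insF w i.succ j)⁻¹ x, (3 : Fin 4)) = insM i.succ (addL (Wh w) j x)
    intro x
    rcases Fin.eq_self_or_eq_succAbove j x with rfl | ⟨y, rfl⟩
    · rw [addL_new, insF_inv_at]
      rfl
    · rw [addL_old, insF_inv_old]
      rfl

/-- The value on a wheel with a new leg on the rim. -/
theorem add_val [AddCommGroup M] {F : (V : Type) → Gr V (m + 2) → M} (hF : Rel F)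
    (w : Perm (Fin (m + 1))) (i : Fin (m + 1)) (j : Fin (m + 2)) :
    F _ (add (Wh w) j (i, 1)) = - F _ (Wh (insF w i.succ j)) := by
  rw [← hF.iso _ _ (Equiv.ofBijective (insM i.succ) (insM_bij i.succ)), add_wh,
    whs_sign hF, Finset.card_singleton, pow_one, neg_one_smul]

end Pool.Agent.SWT75
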