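import Pool.Agent.SWT75.Word3
import Pool.Agent.SWT67.TvAdd
import Pool.Agent.SWT80.Adj
import Pool.Agent.SWT89.Hub

/-!
# From words to graphs with two opened edges
-/

set_option autoImplicit false

namespace Pool.Agent.SWT75

open Equiv Pool.Agent.SWT49 Pool.Agent.SWT80 Pool.Agent.SWT93 Pool.Agent.SWT65 Pool.Agent.SWT89

variable {V W M : Type} {m n : ℕ}

/-! ### Standard wheels are wheels -/

theorem wh_gconn (w : Perm (Fin (m + 1))) : SWT93.GConn (Wh w) := by
  rintro S hS ⟨⟨i, t⟩, hi⟩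
  have he : ∀ v ∈ S, whE v ∈ S := hS.e
  have hr : ∀ v ∈ S, whR ∅ v ∈ S := hS.r
  obtain ⟨b0, b1, b2⟩ : (∀ i : Fin (m + 1), whR ∅ (i, 0) = (i, 1)) ∧
      (∀ i : Fin (m + 1), whR ∅ (i, 1) = (i, 2)) ∧ ∀ i : Fin (m + 1), whR ∅ (i, 2) = (i, 0) :=
    ⟨fun i => (whR_neg (Finset.notMem_empty i)).1, fun i => (whR_neg (Finset.notMem_empty i)).2.1,
      fun i => (whR_neg (Finset.notMem_empty i)).2.2⟩
  have h0 : ∀ i : Fin (m + 1), (i, (0 : Fin 4)) ∈ S → ∀ t, (i, t) ∈ S := by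
    intro i h
    refine t4 h ?_ ?_ ?_
    · exact b0 i ▸ hr _ h
    · exact b1 i ▸ hr _ (b0 i ▸ hr _ h)
    · exact he _ h
  have h1 : (i, (0 : Fin 4)) ∈ S := by
    revert t
    refine t4 ?_ ?_ ?_ ?_
    · exact id
    · exact fun h => b2 i ▸ hr _ (b1 i ▸ hr _ h)
    · exact fun h => b2 i ▸ hr _ h
    · exact fun h => he _ h
  have h2 : ∀ i : Fin (m + 1), (i, (0 : Fin 4)) ∈ S → (finRotate (m + 1) i, (0 : Fin 4)) ∈ S := by
    intro i h
    have h3 := he _ (h0 i h 1)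
    exact b2 _ ▸ hr _ h3
  have h3 : ∀ a : Fin (m + 1), (i + a, (0 : Fin 4)) ∈ S := by
    intro a
    induction a using Fin.induction with
    | zero => rw [add_zero]; exact h1
    | succ k ih =>
      have h4 := h2 _ ih
      rw [finRotate_apply, add_assoc, Fin.coeSucc_eq_succ] at h4
      exact h4
  ext ⟨j, t⟩
  refine ⟨fun _ => trivial, fun _ => h0 j ?_ t⟩
  have h4 := h3 (j - i)
  rwa [add_sub_cancel] at h4

theorem wh_nocherry (w : Perm (Fin (m + 1))) : SWT93.NoCherry (Wh w) := by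
  rintro i j ⟨_, h⟩
  have h1 : whR ∅ (w⁻¹ i, 0) = (w⁻¹ j, 0) := h
  rw [(whR_neg (Finset.notMem_empty _)).1] at h1
  exact absurd (congrArg Prod.snd h1) (by decide : (1 : Fin 4) ≠ 0)

theorem wh_card : Nat.card (WH m) = 4 * (m + 1) := by
  rw [Nat.card_eq_fintype_card, Fintype.card_prod, Fintype.card_fin, Fintype.card_fin, mul_comm]

theorem wh_one (w : Perm (Fin (m + 1))) : One (Wh w) := ⟨wh_gconn w, wh_card⟩

/-! ### Invariance -/

theorem one_smul' {G : Gr V n} (g : Perm (Fin n)) (h : One G) : One (g • G) :=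
  ⟨(SWT93.gconn_smul g).2 h.conn, h.card⟩

theorem one_map' {G : Gr V n} (f : V ≃ W) (h : One G) : One (G.map f) :=
  ⟨(SWT93.gconn_map f).2 h.conn, by rw [← h.card]; exact (Nat.card_congr f).symm⟩

theorem one_of_map {G : Gr V n} {f : V ≃ W} (h : One (G.map f)) : One G :=
  ⟨(SWT93.gconn_map f).1 h.conn, by rw [← h.card]; exact Nat.card_congr f⟩

/-! ### The permutations of the special legs -/

theorem pg_swap (a b : Fin 4) : pg (1 : Perm (Fin (n + 1))) (swap a b) = swap (sq n a) (sq n b) := by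
  refine perm_ext (n := n + 1) (k := 4) (fun i => ?_) fun j => ?_
  · have h1 : ∀ s : Fin 4, (Fin.castAdd 4 i : Fin (n + 1 + 4)) ≠ sq n s := by
      intro s h
      have h2 : i.val = n + 1 + s.val := congrArg Fin.val h
      have := i.isLt
      omega
    refine (pq_l _ _ i).trans ?_
    exact (swap_apply_of_ne_of_ne (h1 a) (h1 b)).symm
  · refine (pg_sq (n := n) 1 (swap a b) j).trans ?_
    show sq n (swap a b j) = swap (sq n a) (sq n b) (sq n j)
    by_cases h1 : j = a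
    · rw [h1, swap_apply_left, swap_apply_left]
    by_cases h2 : j = b
    · rw [h2, swap_apply_right, swap_apply_right]
    rw [swap_apply_of_ne_of_ne h1 h2,
      swap_apply_of_ne_of_ne (fun h => h1 (sq_inj h)) (fun h => h2 (sq_inj h))]

theorem pg_23 : pg (1 : Perm (Fin (n + 1))) (swap 2 3) = SWT67.swL (n + 1 + 2) := pg_swap 2 3

theorem pg_01 : pg (1 : Perm (Fin (n + 1))) (swap 0 1) =
    (pq (SWT67.swL (n + 1)) (1 : Perm (Fin 2)) : Perm (Fin (n + 1 + 2 + 2))) := by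
  rw [pg_swap]
  refine perm_ext (n := n + 1 + 2) (k := 2) (fun i => ?_) fun j => ?_
  · rw [pq_l]
    show swap (Fin.castAdd 2 (Fin.natAdd (n + 1) 0)) (Fin.castAdd 2 (Fin.natAdd (n + 1) 1))
      (Fin.castAdd 2 i) = Fin.castAdd 2 (swap (Fin.natAdd (n + 1) 0) (Fin.natAdd (n + 1) 1) i)
    exact ((Fin.castAdd_injective (n + 1 + 2) 2).map_swap _ _ _).symm
  · rw [pq_r]
    show swap (sq n 0) (sq n 1) (Fin.natAdd (n + 1 + 2) j) = _
    have h1 : ∀ s : Fin 4, s.val < 2 → (Fin.natAdd (n + 1 + 2) j : Fin (n + 1 + 2 + 2)) ≠ sq n s := by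
      intro s hs h
      have h2 : n + 1 + 2 + j.val = n + 1 + s.val := congrArg Fin.val h
      omega
    exact swap_apply_of_ne_of_ne (h1 0 (by decide)) (h1 1 (by decide))

theorem pg_P : pg (1 : Perm (Fin (n + 1))) (swap 0 2 * swap 1 3) = SWT67.swP (n + 1) := by
  have h1 : pg (1 : Perm (Fin (n + 1))) (swap 0 2 * swap 1 3) =
      pg 1 (swap 0 2) * pg 1 (swap 1 3) := by
    have h2 := pq_mul (1 : Perm (Fin (n + 1))) 1 (swap (0 : Fin 4) 2) (swap 1 3)
    rw [mul_one] at h2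
    exact h2.symm
  rw [h1, pg_swap, pg_swap, swap_comm (sq n 0), swap_comm (sq n 1)]
  rfl

theorem pg_g (g : Perm (Fin (n + 1))) : pg g 1 =
    (pq (pq g (1 : Perm (Fin 2))) (1 : Perm (Fin 2)) : Perm (Fin (n + 1 + 2 + 2))) := by
  refine perm_ext (n := n + 1) (k := 4) (fun i => ?_) fun j => ?_
  · refine (pq_l _ _ i).trans ?_
    show _ = pq (pq g 1) 1 (Fin.castAdd 2 (Fin.castAdd 2 i))
    rw [pq_l, pq_l]
    rfl
  · refine (pg_sq (n := n) g 1 j).trans ?_
    show sq n j = (pq (pq g (1 : Perm (Fin 2))) (1 : Perm (Fin 2)) :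
      Perm (Fin (n + 1 + 2 + 2))) (sq n j)
    have k0 : ∀ a : Fin 2, (pq (pq g (1 : Perm (Fin 2))) (1 : Perm (Fin 2)) :
        Perm (Fin (n + 1 + 2 + 2))) (Fin.castAdd 2 (Fin.natAdd (n + 1) a)) =
          Fin.castAdd 2 (Fin.natAdd (n + 1) a) := by
      intro a
      rw [pq_l, pq_r]
      rfl
    have k1 : ∀ a : Fin 2, (pq (pq g (1 : Perm (Fin 2))) (1 : Perm (Fin 2)) :
        Perm (Fin (n + 1 + 2 + 2))) (Fin.natAdd (n + 1 + 2) a) = Fin.natAdd (n + 1 + 2) a := by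
      intro a
      rw [pq_r]
      rfl
    revert j
    exact t4 (k0 0).symm (k0 1).symm (k1 0).symm (k1 1).symm

/-! ### The values with a hub at the end of an opened edge -/

theorem kap_ek (s : Fin 4) (G : Gr V n) (h k : V) :
    kap s G h (G.e k) = kap (swap 2 3 s) G h k := by
  have h2 : (swap (2 : Fin 4) 3) 2 = 3 := by decide
  have h3 : (swap (2 : Fin 4) 3) 3 = 2 := by decide
  have h0 : (swap (2 : Fin 4) 3) 0 = 0 := by decide
  have h1 : (swap (2 : Fin 4) 3) 1 = 1 := by decide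
  revert s
  refine t4 ?_ ?_ ?_ ?_
  · rw [h0]; rfl
  · rw [h1]; rfl
  · rw [h2]; rfl
  · rw [h3]; exact G.e2 k

theorem kap_eh (s : Fin 4) (G : Gr V n) (h k : V) :
    kap s G (G.e h) k = kap (swap 0 1 s) G h k := by
  have h2 : (swap (0 : Fin 4) 1) 2 = 2 := by decide
  have h3 : (swap (0 : Fin 4) 1) 3 = 3 := by decide
  have h0 : (swap (0 : Fin 4) 1) 0 = 1 := by decide
  have h1 : (swap (0 : Fin 4) 1) 1 = 0 := by decide
  revert s
  refine t4 ?_ ?_ ?_ ?_
  · rw [h0]; rfl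
  · rw [h1]; exact G.e2 h
  · rw [h2]; rfl
  · rw [h3]; rfl

theorem kap_comm (s : Fin 4) (G : Gr V n) (h k : V) :
    kap s G k h = kap ((swap 0 2 * swap 1 3 : Perm (Fin 4)) s) G h k := by
  have h2 : (swap 0 2 * swap 1 3 : Perm (Fin 4)) 2 = 0 := by decide
  have h3 : (swap 0 2 * swap 1 3 : Perm (Fin 4)) 3 = 1 := by decide
  have h0 : (swap 0 2 * swap 1 3 : Perm (Fin 4)) 0 = 2 := by decide
  have h1 : (swap 0 2 * swap 1 3 : Perm (Fin 4)) 1 = 3 := by decide
  revert s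
  refine t4 ?_ ?_ ?_ ?_
  · rw [h0]; rfl
  · rw [h1]; rfl
  · rw [h2]; rfl
  · rw [h3]; rfl

section

variable {G : Gr V n} {h k : V}

/-- The wheels with two opened edges. -/
structure OW (G : Gr V n) (h k : V) : Prop where
  one : One (opn2 G h k)
  no : SWT93.NoCherry (opn2 G h k)
  n1 : k ≠ h
  n2 : k ≠ G.e h

theorem nocherry_map' {G : Gr V n} (f : V ≃ W) (h : SWT93.NoCherry G) :
    SWT93.NoCherry (G.map f) := fun i j hij => h i j ((SWT93.cherry_map f).1 hij)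

theorem OW.ek (h1 : OW G h k) : OW G h (G.e k) where
  one := by
    rw [SWT67.opn2_ek h1.n1 h1.n2]
    exact one_map' _ (one_smul' _ h1.one)
  no := by
    rw [SWT67.opn2_ek h1.n1 h1.n2]
    exact nocherry_map' _ ((SWT93.nocherry_smul _).2 h1.no)
  n1 := fun h' => h1.n2 (by rw [← h', G.e2])
  n2 := fun h' => h1.n1 (G.e_inj h')

theorem OW.eh (h1 : OW G h k) : OW G (G.e h) k where
  one := by
    rw [SWT67.opn2_eh]
    exact one_map' _ (one_smul' _ h1.one)
  no := by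
    rw [SWT67.opn2_eh]
    exact nocherry_map' _ ((SWT93.nocherry_smul _).2 h1.no)
  n1 := h1.n2
  n2 := by
    rw [G.e2]
    exact h1.n1

theorem OW.comm (h1 : OW G h k) : OW G k h where
  one := by
    rw [SWT67.opn2_comm G h1.n1 h1.n2]
    exact one_map' _ (one_smul' _ h1.one)
  no := by
    rw [SWT67.opn2_comm G h1.n1 h1.n2]
    exact nocherry_map' _ ((SWT93.nocherry_smul _).2 h1.no)
  n1 := h1.n1.symm
  n2 := fun h' => h1.n2 (by rw [h', G.e2])

end

/-- The cut at the end of an opened edge. -/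
theorem OW.cut [Finite V] {G : Gr V (n + 1)} {h k : V} (h1 : OW G h k) (s : Fin 4) :
    ∃ hx : G.r (kap s G h k) ≠ kap s G h k, One (G.cut (kap s G h k) hx) := by
  have key : ∀ h k : V, OW G h k → ∃ hx : G.r h ≠ h, One (G.cut h hx) := by
    intro h k h1
    have h2 := (SWT67.opn2_inner h1.one.conn (by omega)).2.2.1
    exact ⟨h2, one_cut h1.one h1.no h2⟩
  revert s
  refine t4 ?_ ?_ ?_ ?_
  · exact key h k h1
  · exact key _ _ h1.eh
  · exact key _ _ h1.comm
  · exact key _ _ h1.ek.comm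

/-- The functionals which extend the values with a hub at the end number `s`. -/
structure Ext4 [AddCommGroup M] (W₂ : (V : Type) → Gr V (n + 1 + 3) → M)
    (F : Fin 4 → (V : Type) → Gr V (n + 1 + 2 + 2) → M) : Prop where
  rel : ∀ s, Rel (F s)
  val : ∀ (s : Fin 4) (V : Type) [Finite V] (G : Gr V (n + 1)) (h k : V), One (opn2 G h k) →
    SWT93.NoCherry (opn2 G h k) → F s _ (opn2 G h k) = at3 W₂ V G (kap s G h k)
  tv : ∀ (s : Fin 4) (V : Type) [Finite V] (G : Gr V (n + 1)) (h x y z : V),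
    (y = G.r x ∧ z = G.r (G.r x) ∨ z = G.r x ∧ y = G.r (G.r x)) → (∃ i, G.e z = G.leg i) →
    One (opn2 G h x) → F s _ (opn2 G h x) = F s _ (opn2 G h (G.e y))

end Pool.Agent.SWT75
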