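import Mathlib
import Pool.Agent.SWT49.Rim
import Pool.Agent.SWT65.Ops
import Pool.Agent.SWT93.Even

/-!
# Standard wheels

The wheel with the word `w`: the vertex `i` carries the leg number `w i`, the rim goes from the
vertex `i` to the vertex `i + 1`.
-/

set_option autoImplicit false

namespace Pool.Agent.SWT75

open Equiv Pool.Agent.SWT49 Pool.Agent.SWT80 Pool.Agent.SWT93 Pool.Agent.SWT65

variable {V W M : Type} {m : ℕ}

/-- The half-edges of the wheel: `(i, 0)` leads to the leg `(i, 3)`, `(i, 1)` to the next vertex and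
`(i, 2)` to the previous one. -/
abbrev WH (m : ℕ) : Type := Fin (m + 1) × Fin 4

theorem t4 {P : Fin 4 → Prop} (h0 : P 0) (h1 : P 1) (h2 : P 2) (h3 : P 3) (t : Fin 4) : P t := by
  fin_cases t
  · exact h0
  · exact h1
  · exact h2
  · exact h3

/-- The edges of the wheel. -/
def whE : WH m → WH m
  | (i, 0) => (i, 3)
  | (i, 1) => (finRotate (m + 1) i, 2)
  | (i, 2) => ((finRotate (m + 1)).symm i, 1)
  | (i, 3) => (i, 0)

theorem whE2 (v : WH m) : whE (whE v) = v := by
  obtain ⟨i, t⟩ := v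
  fin_cases t
  · rfl
  · show ((finRotate (m + 1)).symm (finRotate (m + 1) i), (1 : Fin 4)) = (i, 1)
    rw [Equiv.symm_apply_apply]
  · show ((finRotate (m + 1)) ((finRotate (m + 1)).symm i), (2 : Fin 4)) = (i, 2)
    rw [Equiv.apply_symm_apply]
  · rfl

theorem whE1 (v : WH m) : whE v ≠ v := by
  obtain ⟨i, t⟩ := v
  revert t
  refine t4 ?_ ?_ ?_ ?_
  · exact fun h => absurd (congrArg Prod.snd h) (by decide : (3 : Fin 4) ≠ 0)
  · exact fun h => absurd (congrArg Prod.snd h) (by decide : (2 : Fin 4) ≠ 1)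
  · exact fun h => absurd (congrArg Prod.snd h) (by decide : (1 : Fin 4) ≠ 2)
  · exact fun h => absurd (congrArg Prod.snd h) (by decide : (0 : Fin 4) ≠ 3)

/-- The cyclic orders `(leg, out, in)`, reversed at the vertices of `S`. -/
def whR (S : Finset (Fin (m + 1))) : WH m → WH m
  | (i, 0) => if i ∈ S then (i, 2) else (i, 1)
  | (i, 1) => if i ∈ S then (i, 0) else (i, 2)
  | (i, 2) => if i ∈ S then (i, 1) else (i, 0)
  | (i, 3) => (i, 3)

theorem whR_pos {S : Finset (Fin (m + 1))} {i : Fin (m + 1)} (h : i ∈ S) :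
    whR S (i, 0) = (i, 2) ∧ whR S (i, 1) = (i, 0) ∧ whR S (i, 2) = (i, 1) :=
  ⟨if_pos h, if_pos h, if_pos h⟩

theorem whR_neg {S : Finset (Fin (m + 1))} {i : Fin (m + 1)} (h : i ∉ S) :
    whR S (i, 0) = (i, 1) ∧ whR S (i, 1) = (i, 2) ∧ whR S (i, 2) = (i, 0) :=
  ⟨if_neg h, if_neg h, if_neg h⟩

theorem whR_leg (S : Finset (Fin (m + 1))) (i : Fin (m + 1)) : whR S (i, 3) = (i, 3) := rfl

theorem whR3 (S : Finset (Fin (m + 1))) (v : WH m) : whR S (whR S (whR S v)) = v := by
  obtain ⟨i, t⟩ := v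
  by_cases h : i ∈ S
  · obtain ⟨h0, h1, h2⟩ := whR_pos h
    fin_cases t
    · show whR S (whR S (whR S (i, 0))) = (i, 0)
      rw [h0, h2, h1]
    · show whR S (whR S (whR S (i, 1))) = (i, 1)
      rw [h1, h0, h2]
    · show whR S (whR S (whR S (i, 2))) = (i, 2)
      rw [h2, h1, h0]
    · rfl
  · obtain ⟨h0, h1, h2⟩ := whR_neg h
    fin_cases t
    · show whR S (whR S (whR S (i, 0))) = (i, 0)
      rw [h0, h1, h2]
    · show whR S (whR S (whR S (i, 1))) = (i, 1)
      rw [h1, h2, h0]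
    · show whR S (whR S (whR S (i, 2))) = (i, 2)
      rw [h2, h0, h1]
    · rfl

theorem whR_fix (S : Finset (Fin (m + 1))) (v : WH m) : whR S v = v ↔ v.2 = 3 := by
  obtain ⟨i, t⟩ := v
  by_cases h : i ∈ S
  · obtain ⟨h0, h1, h2⟩ := whR_pos h
    fin_cases t
    · show whR S (i, 0) = (i, 0) ↔ (0 : Fin 4) = 3
      rw [h0]; simp
    · show whR S (i, 1) = (i, 1) ↔ (1 : Fin 4) = 3
      rw [h1]; simp
    · show whR S (i, 2) = (i, 2) ↔ (2 : Fin 4) = 3
      rw [h2]; simp
    · exact ⟨fun _ => rfl, fun _ => rfl⟩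
  · obtain ⟨h0, h1, h2⟩ := whR_neg h
    fin_cases t
    · show whR S (i, 0) = (i, 0) ↔ (0 : Fin 4) = 3
      rw [h0]; simp
    · show whR S (i, 1) = (i, 1) ↔ (1 : Fin 4) = 3
      rw [h1]; simp
    · show whR S (i, 2) = (i, 2) ↔ (2 : Fin 4) = 3
      rw [h2]; simp
    · exact ⟨fun _ => rfl, fun _ => rfl⟩

/-- The wheel with the word `w` (position to label) and the set `S` of reversed vertices. -/
def Whs (w : Perm (Fin (m + 1))) (S : Finset (Fin (m + 1))) : Gr (WH m) (m + 1) where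
  e := Function.Involutive.toPerm whE whE2
  r := Gr.perm3 (whR S) (whR3 S)
  leg := fun j => (w⁻¹ j, 3)
  e2 := whE2
  e1 := whE1
  r3 := whR3 S
  inj := fun i j h => by simpa using h
  fix v := by
    show whR S v = v ↔ _
    rw [whR_fix]
    constructor
    · intro h
      refine ⟨w v.1, ?_⟩
      show (w.symm (w v.1), (3 : Fin 4)) = v
      rw [Equiv.symm_apply_apply]
      exact Prod.ext rfl h.symm
    · rintro ⟨j, rfl⟩
      rfl

/-- The standard wheel. -/
def Wh (w : Perm (Fin (m + 1))) : Gr (WH m) (m + 1) := Whs w ∅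

theorem whs_e (w : Perm (Fin (m + 1))) (S : Finset (Fin (m + 1))) (v : WH m) :
    (Whs w S).e v = whE v := rfl

theorem whs_r (w : Perm (Fin (m + 1))) (S : Finset (Fin (m + 1))) (v : WH m) :
    (Whs w S).r v = whR S v := rfl

theorem whs_leg (w : Perm (Fin (m + 1))) (S : Finset (Fin (m + 1))) (j : Fin (m + 1)) :
    (Whs w S).leg j = (w⁻¹ j, 3) := rfl

theorem wh_leg (w : Perm (Fin (m + 1))) (j : Fin (m + 1)) : (Wh w).leg j = (w⁻¹ j, 3) := rfl

theorem smul_whs (g w : Perm (Fin (m + 1))) (S : Finset (Fin (m + 1))) :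
    g • Whs w S = Whs (g * w) S := by
  refine Gr.ext rfl rfl ?_
  funext j
  rw [Gr.smul_leg, whs_leg, whs_leg, mul_inv_rev, Perm.mul_apply]

theorem smul_wh (g w : Perm (Fin (m + 1))) : g • Wh w = Wh (g * w) := smul_whs g w ∅

/-! ### Reversals -/

theorem whs_insert (w : Perm (Fin (m + 1))) (S : Finset (Fin (m + 1))) {i : Fin (m + 1)}
    (hi : i ∉ S) : Whs w (insert i S) = (Whs w S).flip (i, 0) := by
  have hvt : ∀ v : WH m, (Whs w S).vt (i, 0) v ↔ v.1 = i ∧ v.2 ≠ 3 := by
    rintro ⟨k, t⟩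
    obtain ⟨h0, h1, h2⟩ := whR_neg hi
    show ((k, t) = (i, 0) ∨ (k, t) = whR S (i, 0) ∨ (k, t) = whR S (whR S (i, 0))) ↔ _
    rw [h0, h1]
    simp only [Prod.mk.injEq]
    fin_cases t <;> simp
  refine Gr.ext rfl (Equiv.ext fun v => ?_) rfl
  rw [Gr.flip_r]
  show whR (insert i S) v = _
  by_cases hv : (Whs w S).vt (i, 0) v
  · rw [Gr.fr_pos hv]
    obtain ⟨h1, h2⟩ := (hvt v).1 hv
    obtain ⟨k, t⟩ := v
    have h1' : k = i := h1
    subst h1'
    obtain ⟨a0, a1, a2⟩ := whR_pos (Finset.mem_insert_self k S)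
    obtain ⟨b0, b1, b2⟩ := whR_neg hi
    show _ = whR S (whR S (k, t))
    fin_cases t
    · show whR (insert k S) (k, 0) = whR S (whR S (k, 0))
      rw [a0, b0, b1]
    · show whR (insert k S) (k, 1) = whR S (whR S (k, 1))
      rw [a1, b1, b2]
    · show whR (insert k S) (k, 2) = whR S (whR S (k, 2))
      rw [a2, b2, b0]
    · exact absurd rfl h2
  · rw [Gr.fr_neg hv]
    rw [hvt] at hv
    obtain ⟨k, t⟩ := v
    show _ = whR S (k, t)
    by_cases hk : k = i
    · have ht : t = 3 := by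
        by_contra h3
        exact hv ⟨hk, h3⟩
      rw [ht]
      rfl
    · have hm : k ∈ insert i S ↔ k ∈ S := by
        rw [Finset.mem_insert]
        exact ⟨fun h => h.resolve_left hk, Or.inr⟩
      by_cases hS : k ∈ S
      · obtain ⟨a0, a1, a2⟩ := whR_pos (hm.2 hS)
        obtain ⟨b0, b1, b2⟩ := whR_pos hS
        fin_cases t
        · exact a0.trans b0.symm
        · exact a1.trans b1.symm
        · exact a2.trans b2.symm
        · rfl
      · obtain ⟨a0, a1, a2⟩ := whR_neg (fun h => hS (hm.1 h))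
        obtain ⟨b0, b1, b2⟩ := whR_neg hS
        fin_cases t
        · exact a0.trans b0.symm
        · exact a1.trans b1.symm
        · exact a2.trans b2.symm
        · rfl

/-- The sign of the reversals. -/
theorem whs_sign [AddCommGroup M] {F : (V : Type) → Gr V (m + 1) → M} (hF : Rel F)
    (w : Perm (Fin (m + 1))) (S : Finset (Fin (m + 1))) :
    F (WH m) (Whs w S) = (-1 : ℤ) ^ S.card • F (WH m) (Wh w) := by
  induction S using Finset.induction_on with
  | empty =>
    rw [Finset.card_empty, pow_zero, one_smul]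
    rfl
  | insert i S hi ih =>
    rw [whs_insert w S hi, hF.as, ih, Finset.card_insert_of_notMem hi, pow_succ, mul_neg_one,
      neg_smul]
    rw [whs_r, (whR_neg hi).1]
    intro h
    exact absurd (congrArg Prod.snd h) (by decide : (1 : Fin 4) ≠ 0)

/-! ### Rotation and reflection -/

theorem wh_rot (w : Perm (Fin (m + 1))) (S : Finset (Fin (m + 1))) :
    (Whs w S).map ((finRotate (m + 1)).prodCongr (Equiv.refl (Fin 4))) =
      Whs (w * (finRotate (m + 1))⁻¹) (S.map (finRotate (m + 1)).toEmbedding) := by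
  refine Gr.map_eq ?_ ?_ ?_
  · rintro ⟨i, t⟩
    fin_cases t
    · rfl
    · rfl
    · show ((finRotate (m + 1)).symm (finRotate (m + 1) i), (1 : Fin 4)) =
        (finRotate (m + 1) ((finRotate (m + 1)).symm i), 1)
      rw [Equiv.symm_apply_apply, Equiv.apply_symm_apply]
    · rfl
  · rintro ⟨i, t⟩
    have hm : finRotate (m + 1) i ∈ S.map (finRotate (m + 1)).toEmbedding ↔ i ∈ S :=
      Finset.mem_map' _
    show whR _ (finRotate (m + 1) i, t) = ((finRotate (m + 1)).prodCongr (Equiv.refl (Fin 4)))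
      (whR S (i, t))
    by_cases h : i ∈ S
    · obtain ⟨a0, a1, a2⟩ := whR_pos (hm.2 h)
      obtain ⟨b0, b1, b2⟩ := whR_pos h
      revert t
      refine t4 ?_ ?_ ?_ ?_
      · rw [a0, b0]; rfl
      · rw [a1, b1]; rfl
      · rw [a2, b2]; rfl
      · rfl
    · obtain ⟨a0, a1, a2⟩ := whR_neg (fun h' => h (hm.1 h'))
      obtain ⟨b0, b1, b2⟩ := whR_neg h
      revert t
      refine t4 ?_ ?_ ?_ ?_
      · rw [a0, b0]; rfl
      · rw [a1, b1]; rfl
      · rw [a2, b2]; rfl
      · rfl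
  · intro j
    rw [whs_leg, whs_leg, mul_inv_rev, inv_inv]
    rfl

/-- The rotation of the word. -/
theorem rot_eq [AddCommGroup M] {F : (V : Type) → Gr V (m + 1) → M} (hF : Rel F)
    (w : Perm (Fin (m + 1))) :
    F (WH m) (Wh (w * finRotate (m + 1))) = F (WH m) (Wh w) := by
  have h := wh_rot (w * finRotate (m + 1)) ∅
  rw [mul_assoc, mul_inv_cancel, mul_one, Finset.map_empty] at h
  unfold Wh
  rw [← h, hF.iso]

/-- The reflection of the half-edges. -/
def refl4 : Perm (Fin 4) := swap 1 2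

theorem w0_rot (i : Fin (m + 1)) : (finRotate (m + 1)).symm (w0 m i) = w0 m (finRotate (m + 1) i) := by
  rw [Equiv.symm_apply_eq]
  exact (w0_c i).symm

theorem w0_w0 (i : Fin (m + 1)) : w0 m (w0 m i) = i := by
  unfold w0
  rw [Fin.revPerm_apply, Fin.revPerm_apply, Fin.rev_rev]

theorem wh_refl (w : Perm (Fin (m + 1))) :
    (Wh w).map ((w0 m).prodCongr refl4) = Whs (w * w0 m) Finset.univ := by
  have s0 : refl4 0 = 0 := by decide
  have s1 : refl4 1 = 2 := by decide
  have s2 : refl4 2 = 1 := by decide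
  have s3 : refl4 3 = 3 := by decide
  refine Gr.map_eq ?_ ?_ ?_
  · rintro ⟨i, t⟩
    show whE (w0 m i, refl4 t) = ((w0 m).prodCongr refl4) (whE (i, t))
    fin_cases t
    · show whE (w0 m i, refl4 0) = (w0 m i, refl4 3)
      rw [s0, s3]
      rfl
    · show whE (w0 m i, refl4 1) = (w0 m (finRotate (m + 1) i), refl4 2)
      rw [s1, s2, ← w0_rot]
      rfl
    · show whE (w0 m i, refl4 2) = (w0 m ((finRotate (m + 1)).symm i), refl4 1)
      rw [s1, s2]
      show (finRotate (m + 1) (w0 m i), (2 : Fin 4)) = _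
      have h := w0_c ((finRotate (m + 1)).symm i)
      rw [Equiv.apply_symm_apply] at h
      rw [← h]
    · show whE (w0 m i, refl4 3) = (w0 m i, refl4 0)
      rw [s0, s3]
      rfl
  · rintro ⟨i, t⟩
    obtain ⟨a0, a1, a2⟩ := whR_pos (Finset.mem_univ (w0 m i))
    obtain ⟨b0, b1, b2⟩ := whR_neg (Finset.notMem_empty i)
    show whR Finset.univ (w0 m i, refl4 t) = ((w0 m).prodCongr refl4) (whR ∅ (i, t))
    fin_cases t
    · show whR Finset.univ (w0 m i, refl4 0) = ((w0 m).prodCongr refl4) (whR ∅ (i, 0))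
      rw [b0, s0, a0]
      show _ = (w0 m i, refl4 1)
      rw [s1]
    · show whR Finset.univ (w0 m i, refl4 1) = ((w0 m).prodCongr refl4) (whR ∅ (i, 1))
      rw [b1, s1, a2]
      show _ = (w0 m i, refl4 2)
      rw [s2]
    · show whR Finset.univ (w0 m i, refl4 2) = ((w0 m).prodCongr refl4) (whR ∅ (i, 2))
      rw [b2, s2, a1]
      show _ = (w0 m i, refl4 0)
      rw [s0]
    · show whR Finset.univ (w0 m i, refl4 3) = ((w0 m).prodCongr refl4) (whR ∅ (i, 3))
      rw [s3]
      show _ = (w0 m i, refl4 3)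
      rw [s3]
      exact whR_leg _ _
  · intro j
    have h1 : (w * w0 m)⁻¹ j = w0 m (w⁻¹ j) := by
      rw [Perm.inv_eq_iff_eq, Perm.mul_apply, w0_w0]
      exact (w.apply_symm_apply j).symm
    show ((w * w0 m)⁻¹ j, (3 : Fin 4)) = (w0 m (w⁻¹ j), refl4 3)
    rw [h1, s3]

/-- The reflection of the word. -/
theorem refl_eq [AddCommGroup M] {F : (V : Type) → Gr V (m + 1) → M} (hF : Rel F)
    (w : Perm (Fin (m + 1))) :
    F (WH m) (Wh (w * w0 m)) = (-1 : ℤ) ^ (m + 1) • F (WH m) (Wh w) := by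
  have h1 := whs_sign hF (w * w0 m) Finset.univ
  rw [← wh_refl, hF.iso, Finset.card_univ, Fintype.card_fin] at h1
  rw [h1, smul_smul, ← pow_add]
  have h2 : (-1 : ℤ) ^ (m + 1 + (m + 1)) = 1 := by
    rw [← two_mul]
    exact Even.neg_one_pow (even_two_mul _)
  rw [h2, one_smul]

end Pool.Agent.SWT75
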