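import Pool.Agent.SWT75.Wh

/-!
# Every wheel is a standard wheel
-/

set_option autoImplicit false

namespace Pool.Agent.SWT75

open Equiv Pool.Agent.SWT49 Pool.Agent.SWT80 Pool.Agent.SWT93 Pool.Agent.SWT65

variable {V W M : Type} {m : ℕ}

/-- An isomorphism from its inverse. -/
theorem map_of (T : Gr V (m + 1)) (T' : Gr W (m + 1)) (f : W ≃ V)
    (he : ∀ u, f (T'.e u) = T.e (f u)) (hr : ∀ u, f (T'.r u) = T.r (f u))
    (hl : ∀ i, f (T'.leg i) = T.leg i) : T.map f.symm = T' := by
  refine Gr.map_eq ?_ ?_ ?_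
  · intro v
    obtain ⟨u, rfl⟩ := f.surjective v
    rw [← he, Equiv.symm_apply_apply, Equiv.symm_apply_apply]
  · intro v
    obtain ⟨u, rfl⟩ := f.surjective v
    rw [← hr, Equiv.symm_apply_apply, Equiv.symm_apply_apply]
  · intro i
    rw [← hl, Equiv.symm_apply_apply]

/-- **Every wheel is a standard wheel** with some vertices reversed. -/
theorem exists_wh [Finite V] (T : Gr V (m + 1)) (hG : SWT93.GConn T) (h3 : 3 ≤ m + 1)
    (hV : Nat.card V = 4 * (m + 1)) (hno : SWT93.NoCherry T) :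
    ∃ (w : Perm (Fin (m + 1))) (S : Finset (Fin (m + 1))) (f : V ≃ WH m), T.map f = Whs w S := by
  classical
  obtain ⟨g, hg⟩ := exists_rim T hG h3 hV hno
  have hG' : SWT93.GConn (g • T) := (gconn_smul g).2 hG
  have hno' : SWT93.NoCherry (g • T) := (nocherry_smul g).2 hno
  obtain ⟨T', hT'⟩ : ∃ T', T' = g • T := ⟨_, rfl⟩
  rw [← hT'] at hg hG' hno'
  have hp := psi_bij T' hG' h3 hV hno'
  have hin := leg_inner T' hG' h3
  choose o ho1 ho2 using hg
  let inn : Fin (m + 1) → V := fun i => T'.e (o ((finRotate (m + 1)).symm i))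
  have hinn : ∀ i, inn i = T'.r (xe T' i) ∨ inn i = T'.r (T'.r (xe T' i)) := by
    intro i
    have h := ho2 ((finRotate (m + 1)).symm i)
    rw [Equiv.apply_symm_apply] at h
    exact h
  have psi1 : ∀ i j : Fin (m + 1), ∀ k l : Fin 3,
      psi T' (Sum.inl (i, k)) = psi T' (Sum.inl (j, l)) → i = j ∧ k = l := by
    intro i j k l h
    have h1 := Sum.inl.inj (hp.1 h)
    exact ⟨congrArg Prod.fst h1, congrArg Prod.snd h1⟩
  -- a half-edge at two vertices
  have hat : ∀ (i j : Fin (m + 1)) (v : V), (v = T'.r (xe T' i) ∨ v = T'.r (T'.r (xe T' i))) →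
      (v = T'.r (xe T' j) ∨ v = T'.r (T'.r (xe T' j))) → i = j := by
    rintro i j v (h1 | h1) (h2 | h2)
    · exact (psi1 i j 1 1 (h1.symm.trans h2)).1
    · exact (psi1 i j 1 2 (h1.symm.trans h2)).1
    · exact (psi1 i j 2 1 (h1.symm.trans h2)).1
    · exact (psi1 i j 2 2 (h1.symm.trans h2)).1
  have hne : ∀ i, inn i ≠ o i := by
    intro i h
    have h1 : T'.e (o i) = o ((finRotate (m + 1)).symm i) := by
      rw [← h]
      exact T'.e2 _
    have h2 := ho2 i
    rw [h1] at h2
    have h4 := hat _ _ _ (ho1 ((finRotate (m + 1)).symm i)) h2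
    apply c_ne h3 ((finRotate (m + 1)).symm i)
    rw [Equiv.apply_symm_apply]
    exact h4.symm
  let S : Finset (Fin (m + 1)) := Finset.univ.filter fun i => o i = T'.r (T'.r (xe T' i))
  have hS : ∀ i, i ∈ S ↔ o i = T'.r (T'.r (xe T' i)) := fun i => by simp [S]
  have hpos : ∀ i, i ∈ S → o i = T'.r (T'.r (xe T' i)) ∧ inn i = T'.r (xe T' i) := by
    intro i hi
    have h1 := (hS i).1 hi
    refine ⟨h1, (hinn i).resolve_right fun h2 => hne i (h2.trans h1.symm)⟩
  have hneg : ∀ i, i ∉ S → o i = T'.r (xe T' i) ∧ inn i = T'.r (T'.r (xe T' i)) := by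
    intro i hi
    have h1 : o i = T'.r (xe T' i) := (ho1 i).resolve_right fun h2 => hi ((hS i).2 h2)
    refine ⟨h1, (hinn i).resolve_left fun h2 => hne i (h2.trans h1.symm)⟩
  let F : WH m → V := fun u => match u with
    | (i, 0) => xe T' i
    | (i, 1) => o i
    | (i, 2) => inn i
    | (i, 3) => T'.leg i
  let φ : WH m → (Fin (m + 1) × Fin 3) ⊕ Fin (m + 1) := fun u => match u with
    | (i, 0) => Sum.inl (i, 0)
    | (i, 1) => Sum.inl (i, if i ∈ S then 2 else 1)
    | (i, 2) => Sum.inl (i, if i ∈ S then 1 else 2)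
    | (i, 3) => Sum.inr i
  have hFφ : ∀ u, F u = psi T' (φ u) := by
    rintro ⟨i, t⟩
    revert t
    refine t4 ?_ ?_ ?_ ?_
    · rfl
    · show o i = psi T' (Sum.inl (i, if i ∈ S then 2 else 1))
      by_cases h : i ∈ S
      · rw [if_pos h, (hpos i h).1]; rfl
      · rw [if_neg h, (hneg i h).1]; rfl
    · show inn i = psi T' (Sum.inl (i, if i ∈ S then 1 else 2))
      by_cases h : i ∈ S
      · rw [if_pos h, (hpos i h).2]; rfl
      · rw [if_neg h, (hneg i h).2]; rfl
    · rfl
  have hφ : Function.Injective φ := by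
    have key : ∀ i : Fin (m + 1), ∀ t t' : Fin 4, φ (i, t) = φ (i, t') → t = t' := by
      intro i
      by_cases h : i ∈ S
      · have a0 : φ (i, 0) = Sum.inl (i, 0) := rfl
        have a1 : φ (i, 1) = Sum.inl (i, 2) := by
          show Sum.inl (i, if i ∈ S then (2 : Fin 3) else 1) = _
          rw [if_pos h]
        have a2 : φ (i, 2) = Sum.inl (i, 1) := by
          show Sum.inl (i, if i ∈ S then (1 : Fin 3) else 2) = _
          rw [if_pos h]
        have a3 : φ (i, 3) = Sum.inr i := rfl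
        refine t4 ?_ ?_ ?_ ?_ <;> refine t4 ?_ ?_ ?_ ?_ <;>
          simp only [a0, a1, a2, a3] <;> intro h' <;> simp at h' ⊢
      · have a0 : φ (i, 0) = Sum.inl (i, 0) := rfl
        have a1 : φ (i, 1) = Sum.inl (i, 1) := by
          show Sum.inl (i, if i ∈ S then (2 : Fin 3) else 1) = _
          rw [if_neg h]
        have a2 : φ (i, 2) = Sum.inl (i, 2) := by
          show Sum.inl (i, if i ∈ S then (1 : Fin 3) else 2) = _
          rw [if_neg h]
        have a3 : φ (i, 3) = Sum.inr i := rfl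
        refine t4 ?_ ?_ ?_ ?_ <;> refine t4 ?_ ?_ ?_ ?_ <;>
          simp only [a0, a1, a2, a3] <;> intro h' <;> simp at h' ⊢
    have fst : ∀ u u', φ u = φ u' → u.1 = u'.1 := by
      have hc : ∀ u : WH m, (∃ k, φ u = Sum.inl (u.1, k)) ∨ φ u = Sum.inr u.1 := by
        rintro ⟨i, t⟩
        revert t
        exact t4 (Or.inl ⟨_, rfl⟩) (Or.inl ⟨_, rfl⟩) (Or.inl ⟨_, rfl⟩) (Or.inr rfl)
      intro u u' h
      rcases hc u with ⟨k, h1⟩ | h1 <;> rcases hc u' with ⟨k', h2⟩ | h2 <;> rw [h1, h2] at h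
      · have h3 := Sum.inl.inj h
        exact (Prod.mk.inj h3).1
      · exact absurd h Sum.inl_ne_inr
      · exact absurd h Sum.inr_ne_inl
      · exact Sum.inr.inj h
    rintro ⟨i, t⟩ ⟨j, t'⟩ h
    have h1 : i = j := fst _ _ h
    subst h1
    rw [key i t t' h]
  have hF : Function.Bijective F := by
    have hinj : Function.Injective F := by
      intro u u' h
      rw [hFφ, hFφ] at h
      exact hφ (hp.1 h)
    have hVf : Fintype V := Fintype.ofFinite V
    refine (Fintype.bijective_iff_injective_and_card _).2 ⟨hinj, ?_⟩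
    rw [← Nat.card_eq_fintype_card (α := V), hV, Fintype.card_prod, Fintype.card_fin,
      Fintype.card_fin, mul_comm]
  have hmap : T'.map (Equiv.ofBijective F hF).symm = Whs 1 S := by
    refine map_of T' (Whs 1 S) (Equiv.ofBijective F hF) ?_ ?_ ?_
    · rintro ⟨i, t⟩
      show F (whE (i, t)) = T'.e (F (i, t))
      revert t
      refine t4 ?_ ?_ ?_ ?_
      · exact (e_xe T' i).symm
      · show T'.e (o ((finRotate (m + 1)).symm (finRotate (m + 1) i))) = T'.e (o i)
        rw [Equiv.symm_apply_apply]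
      · exact (T'.e2 _).symm
      · rfl
    · rintro ⟨i, t⟩
      show F (whR S (i, t)) = T'.r (F (i, t))
      by_cases h : i ∈ S
      · obtain ⟨a0, a1, a2⟩ := whR_pos h
        obtain ⟨b1, b2⟩ := hpos i h
        revert t
        refine t4 ?_ ?_ ?_ ?_
        · rw [a0]; exact b2
        · rw [a1]
          show xe T' i = T'.r (o i)
          rw [b1, T'.r3]
        · rw [a2]
          show o i = T'.r (inn i)
          rw [b1, b2]
        · exact (T'.r_leg i).symm
      · obtain ⟨a0, a1, a2⟩ := whR_neg h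
        obtain ⟨b1, b2⟩ := hneg i h
        revert t
        refine t4 ?_ ?_ ?_ ?_
        · rw [a0]; exact b1
        · rw [a1]
          show inn i = T'.r (o i)
          rw [b1, b2]
        · rw [a2]
          show xe T' i = T'.r (inn i)
          rw [b2, T'.r3]
        · exact (T'.r_leg i).symm
    · intro i
      rfl
  refine ⟨g⁻¹, S, (Equiv.ofBijective F hF).symm, ?_⟩
  have h5 : T = g⁻¹ • T' := by rw [hT', inv_smul_smul]
  rw [h5, ← Gr.smul_map, hmap, smul_whs, mul_one]

/-- The value on a wheel, up to a sign, is the value on a standard wheel. -/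
theorem val_wh [Finite V] (T : Gr V (m + 1)) (hG : SWT93.GConn T) (h3 : 3 ≤ m + 1)
    (hV : Nat.card V = 4 * (m + 1)) (hno : SWT93.NoCherry T) :
    ∃ (w : Perm (Fin (m + 1))) (k : ℕ), ∀ (M : Type) [AddCommGroup M]
      (F : (V : Type) → Gr V (m + 1) → M), Rel F → F V T = (-1 : ℤ) ^ k • F (WH m) (Wh w) := by
  obtain ⟨w, S, f, h⟩ := exists_wh T hG h3 hV hno
  refine ⟨w, S.card, fun M _ F hF => ?_⟩
  rw [← hF.iso V _ f T, h, whs_sign hF]

end Pool.Agent.SWT75
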