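import Pool.Agent.SWT75.Ins

/-!
# Words with four special letters

`b s w` is the value with the hub at the special letter `s` of the word `w`.
-/

set_option autoImplicit false

namespace Pool.Agent.SWT75

open Equiv Pool.Agent.SWT49 Pool.Agent.SWT80 Pool.Agent.SWT93 Pool.Agent.SWT65

variable {M : Type} {m n : ℕ}

/-! ### Letters -/

/-- The special letters of the words of the length `n + 4`. -/
def sp (n : ℕ) (s : Fin 4) : Fin (n + 4) := Fin.natAdd n s

/-- The special letters of the words of the length `n + 5`. -/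
def sq (n : ℕ) (s : Fin 4) : Fin (n + 4 + 1) := (Fin.natAdd (n + 1) s : Fin (n + 1 + 4))

/-- The permutations of the letters. -/
def pg (g : Perm (Fin (n + 1))) (π : Perm (Fin 4)) : Perm (Fin (n + 4 + 1)) :=
  (pq g π : Perm (Fin (n + 1 + 4)))

theorem sq_sp (s : Fin 4) : sq n s = (0 : Fin (n + 4 + 1)).succAbove (sp n s) := by
  rw [Fin.succAbove_zero]
  apply Fin.ext
  show n + 1 + s.val = n + s.val + 1
  omega

theorem sq_inj {s t : Fin 4} (h : sq n s = sq n t) : s = t := by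
  have h1 : n + 1 + s.val = n + 1 + t.val := congrArg Fin.val h
  apply Fin.ext
  omega

theorem sp_inj {s t : Fin 4} (h : sp n s = sp n t) : s = t := by
  have h1 : n + s.val = n + t.val := congrArg Fin.val h
  apply Fin.ext
  omega

theorem pg_sq (g : Perm (Fin (n + 1))) (π : Perm (Fin 4)) (s : Fin 4) :
    pg g π (sq n s) = sq n (π s) := pq_r g π s

theorem pg_inv (g : Perm (Fin (n + 1))) (π : Perm (Fin 4)) : (pg g π)⁻¹ = pg g⁻¹ π⁻¹ :=
  pq_inv g π

theorem pg_pos (g : Perm (Fin (n + 1))) (π : Perm (Fin 4)) (w : Perm (Fin (n + 4 + 1)))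
    (s : Fin 4) : (pg g π * w)⁻¹ (sq n s) = w⁻¹ (sq n (π⁻¹ s)) := by
  rw [mul_inv_rev, Perm.mul_apply, pg_inv, pg_sq]

/-- A permutation which fixes the special letters. -/
theorem exists_pq {a b : ℕ} (p : Perm (Fin (a + b)))
    (h : ∀ j : Fin b, p (Fin.natAdd a j) = Fin.natAdd a j) : ∃ g : Perm (Fin a), p = pq g 1 := by
  obtain ⟨σ, hσ⟩ : ∃ σ : Perm (Fin a ⊕ Fin b), σ = finSumFinEquiv.symm.permCongr p := ⟨_, rfl⟩
  have hp : p = finSumFinEquiv.permCongr σ := by
    rw [hσ]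
    exact Equiv.ext fun x => by simp
  have h1 : ∀ j, σ (Sum.inr j) = Sum.inr j := by
    intro j
    rw [hσ]
    show finSumFinEquiv.symm (p (finSumFinEquiv (Sum.inr j))) = _
    rw [finSumFinEquiv_apply_right, h, finSumFinEquiv_symm_apply_natAdd]
  have h2 : Set.MapsTo σ (Set.range Sum.inl) (Set.range Sum.inl) := by
    rintro _ ⟨i, rfl⟩
    rcases h3 : σ (Sum.inl i) with k | k
    · exact ⟨k, rfl⟩
    · have h4 := σ.injective (h3.trans (h1 k).symm)
      cases h4
  obtain ⟨⟨g, g'⟩, hg⟩ := Equiv.Perm.mem_sumCongrHom_range_of_perm_mapsTo_inl h2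
  have hg' : Equiv.sumCongr g g' = σ := hg
  refine ⟨g, ?_⟩
  have h5 : g' = 1 := by
    refine Equiv.ext fun j => ?_
    have h6 := h1 j
    rw [← hg'] at h6
    exact Sum.inr.inj h6
  rw [hp, ← hg', h5]
  rfl

/-! ### Positions -/

theorem sub_val (x a : Fin (m + 1)) :
    (x - a).val = if a.val ≤ x.val then x.val - a.val else m + 1 + x.val - a.val := by
  rw [Fin.val_sub]
  have h1 := x.isLt
  have h2 := a.isLt
  by_cases h : a.val ≤ x.val
  · rw [if_pos h]
    have h3 : m + 1 - a.val + x.val = (x.val - a.val) + (m + 1) := by omega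
    rw [h3, Nat.add_mod_right, Nat.mod_eq_of_lt (by omega)]
  · rw [if_neg h, Nat.mod_eq_of_lt (by omega)]
    omega

theorem prev_val (k : Fin (m + 1)) :
    ((finRotate (m + 1)).symm k).succ.val = if k.val = 0 then m + 1 else k.val := by
  obtain ⟨i, rfl⟩ := (finRotate (m + 1)).surjective k
  rw [Equiv.symm_apply_apply, rot_val, Fin.val_succ]
  by_cases h : i.val = m
  · rw [if_pos h, if_pos rfl, h]
  · rw [if_neg h, if_neg (by omega)]

/-- The properties of the values. -/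
structure Wd [AddCommGroup M] (b : Fin 4 → Perm (Fin (n + 4 + 1)) → M) : Prop where
  rot : ∀ s w, b s (w * finRotate (n + 4 + 1)) = b s w
  refl : ∀ s w, b s (w * w0 (n + 4)) = b s w
  inv : ∀ s t w g, b s (pg g 1 * w) - b t (pg g 1 * w) = b s w - b t w
  sym01 : ∀ s w, b s (pg 1 (swap 0 1) * w) = b (swap 0 1 s) w
  sym23 : ∀ s w, b s (pg 1 (swap 2 3) * w) = b (swap 2 3 s) w
  symP : ∀ s w, b s (pg 1 (swap 0 2 * swap 1 3) * w) = b ((swap 0 2 * swap 1 3 : Perm (Fin 4)) s) w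
  tv : ∀ s (w : Perm (Fin (n + 3 + 1))),
    b s (insF w (w⁻¹ (sp n 2)).succ 0) -
      b s (insF w ((finRotate (n + 3 + 1)).symm (w⁻¹ (sp n 2))).succ 0) +
    (b s (insF w (w⁻¹ (sp n 3)).succ 0) -
      b s (insF w ((finRotate (n + 3 + 1)).symm (w⁻¹ (sp n 3))).succ 0)) = 0
  adj : ∀ (s t : Fin 4) w, s.val / 2 ≠ t.val / 2 →
    w⁻¹ (sq n t) = finRotate (n + 4 + 1) (w⁻¹ (sq n s)) → b s w = b t w

theorem pg_insF (π : Perm (Fin 4)) (w : Perm (Fin (n + 4))) (i : Fin (n + 4 + 1)) :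
    pg 1 π * insF w i 0 = insF (pq (1 : Perm (Fin n)) π * w) i 0 := by
  have h0 : pg 1 π (0 : Fin (n + 4 + 1)) = 0 := by
    have h1 : (0 : Fin (n + 4 + 1)) = (Fin.castAdd 4 (0 : Fin (n + 1)) : Fin (n + 1 + 4)) := rfl
    rw [h1]
    exact pq_l _ _ _
  have h2 : ∀ y : Fin (n + 4), pg 1 π ((0 : Fin (n + 4 + 1)).succAbove y) =
      (0 : Fin (n + 4 + 1)).succAbove (pq (1 : Perm (Fin n)) π y) := by
    intro y
    induction y using Fin.addCases with
    | left a =>
      rw [pq_l, Fin.succAbove_zero]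
      have h3 : (Fin.castAdd 4 a).succ = (Fin.castAdd 4 a.succ : Fin (n + 1 + 4)) := rfl
      rw [h3]
      exact pq_l _ _ _
    | right s =>
      rw [pq_r]
      have h3 := sq_sp (n := n) s
      have h4 := sq_sp (n := n) (π s)
      unfold sp at h3 h4
      rw [← h3, ← h4, pg_sq]
  refine Equiv.ext fun x => ?_
  rcases Fin.eq_self_or_eq_succAbove i x with rfl | ⟨k, rfl⟩
  · rw [Perm.mul_apply, insF_at, insF_at, h0]
  · rw [Perm.mul_apply, insF_old, insF_old, h2, Perm.mul_apply]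

section

variable [AddCommGroup M] {b : Fin 4 → Perm (Fin (n + 4 + 1)) → M} (hb : Wd b)

include hb

/-! ### Invariance -/

theorem Wd.rotA (a : Fin (n + 4 + 1)) (s : Fin 4) (w : Perm (Fin (n + 4 + 1))) :
    b s (w * Equiv.addRight a) = b s w := by
  induction a using Fin.induction with
  | zero =>
    have h1 : Equiv.addRight (0 : Fin (n + 4 + 1)) = 1 :=
      Equiv.ext fun x => by simp
    rw [h1, mul_one]
  | succ k ih =>
    have h1 : Equiv.addRight k.succ = Equiv.addRight k.castSucc * finRotate (n + 4 + 1) := by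
      refine Equiv.ext fun x => ?_
      rw [Perm.mul_apply, finRotate_apply]
      show x + k.succ = x + 1 + k.castSucc
      rw [← Fin.coeSucc_eq_succ]
      abel
    rw [h1, ← mul_assoc, hb.rot, ih]

theorem Wd.reflA (a : Fin (n + 4 + 1)) (s : Fin 4) (w : Perm (Fin (n + 4 + 1))) :
    b s (w * Equiv.subLeft a) = b s w := by
  have h1 : Equiv.subLeft a = Equiv.addRight (a + 1) * w0 (n + 4) := by
    refine Equiv.ext fun x => ?_
    rw [Perm.mul_apply]
    show a - x = w0 (n + 4) x + (a + 1)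
    have h2 : w0 (n + 4) x = -1 - x := by
      apply Fin.ext
      show x.rev.val = _
      rw [Fin.val_rev, sub_val]
      have h3 : (-1 : Fin (n + 4 + 1)).val = n + 4 := by
        rw [← zero_sub, sub_val]
        show (if 1 % (n + 4 + 1) ≤ 0 % (n + 4 + 1) then _ else _) = _
        rw [Nat.mod_eq_of_lt (by omega), Nat.zero_mod, if_neg (by omega)]
        show n + 4 + 1 + 0 - 1 % (n + 4 + 1) = n + 4
        rw [Nat.mod_eq_of_lt (by omega)]
        omega
      rw [h3]
      have h4 := x.isLt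
      split_ifs <;> omega
    rw [h2]
    abel
  rw [h1, ← mul_assoc, hb.refl, hb.rotA]

/-- The differences depend only on the positions of the special letters. -/
theorem Wd.dep {w w' : Perm (Fin (n + 4 + 1))} (h : ∀ s, w⁻¹ (sq n s) = w'⁻¹ (sq n s))
    (s t : Fin 4) : b s w - b t w = b s w' - b t w' := by
  obtain ⟨g, hg⟩ := exists_pq (a := n + 1) (b := 4) (w * w'⁻¹) (by
    intro j
    have h1 := h j
    show w (w'⁻¹ (sq n j)) = sq n j
    rw [← h1]
    exact w.apply_symm_apply _)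
  have h2 : w = pg g 1 * w' := by
    show w = (pq g 1 : Perm (Fin (n + 1 + 4))) * w'
    rw [← hg, inv_mul_cancel_right]
  rw [h2, hb.inv]

/-- An ordinary letter is removed. -/
theorem Wd.del {w : Perm (Fin (n + 4 + 1))} {p : Fin (n + 4 + 1)}
    (h : ∀ s, w⁻¹ (sq n s) ≠ p) : ∃ w' : Perm (Fin (n + 3 + 1)),
      (∀ s t, b s w - b t w = b s (insF w' p 0) - b t (insF w' p 0)) ∧
      ∀ s, w⁻¹ (sq n s) = p.succAbove (w'⁻¹ (sp n s)) := by
  obtain ⟨a, ha⟩ : ∃ a : Fin (n + 1), w p = (Fin.castAdd 4 a : Fin (n + 1 + 4)) := by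
    obtain ⟨x, hx⟩ : ∃ x : Fin (n + 1 + 4), x = w p := ⟨w p, rfl⟩
    induction x using Fin.addCases with
    | left a => exact ⟨a, hx.symm⟩
    | right s =>
      exfalso
      apply h s
      show w⁻¹ (Fin.natAdd (n + 1) s : Fin (n + 1 + 4)) = p
      rw [hx]
      exact w.symm_apply_apply p
  have h1 : (pg (swap a 0) 1 * w) p = 0 := by
    rw [Perm.mul_apply, ha]
    show pq (swap a 0) (1 : Perm (Fin 4)) (Fin.castAdd 4 a) = _
    rw [pq_l, swap_apply_left]
    rfl
  obtain ⟨w', hw'⟩ := exists_insF (pg (swap a 0) 1 * w) p 0 h1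
  refine ⟨w', fun s t => ?_, fun s => ?_⟩
  · rw [← hw', hb.inv]
  · have h2 := pg_pos (swap a 0) 1 w s
    rw [hw'] at h2
    rw [inv_one] at h2
    have h3 : w⁻¹ (sq n s) = (insF w' p 0)⁻¹ (sq n s) := h2.symm
    rw [h3, sq_sp, insF_inv_old]

/-! ### The crossing of a letter -/

/-- The sum over the two ends of an opened edge. -/
theorem Wd.tvE {r r' : Fin 4} (hr : r.val / 2 = r'.val / 2) (hne : r ≠ r') (s t : Fin 4)
    (w : Perm (Fin (n + 3 + 1))) :
    ((b s (insF w (w⁻¹ (sp n r)).succ 0) - b t (insF w (w⁻¹ (sp n r)).succ 0)) -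
      (b s (insF w ((finRotate (n + 3 + 1)).symm (w⁻¹ (sp n r))).succ 0) -
        b t (insF w ((finRotate (n + 3 + 1)).symm (w⁻¹ (sp n r))).succ 0))) +
    ((b s (insF w (w⁻¹ (sp n r')).succ 0) - b t (insF w (w⁻¹ (sp n r')).succ 0)) -
      (b s (insF w ((finRotate (n + 3 + 1)).symm (w⁻¹ (sp n r'))).succ 0) -
        b t (insF w ((finRotate (n + 3 + 1)).symm (w⁻¹ (sp n r'))).succ 0))) = 0 := by
  have key : ∀ s : Fin 4, (b s (insF w (w⁻¹ (sp n r)).succ 0) -
      b s (insF w ((finRotate (n + 3 + 1)).symm (w⁻¹ (sp n r))).succ 0)) +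
      (b s (insF w (w⁻¹ (sp n r')).succ 0) -
      b s (insF w ((finRotate (n + 3 + 1)).symm (w⁻¹ (sp n r'))).succ 0)) = 0 := by
    intro s
    have k1 := hb.tv s w
    have k2 : (b s (insF w (w⁻¹ (sp n 0)).succ 0) -
        b s (insF w ((finRotate (n + 3 + 1)).symm (w⁻¹ (sp n 0))).succ 0)) +
        (b s (insF w (w⁻¹ (sp n 1)).succ 0) -
        b s (insF w ((finRotate (n + 3 + 1)).symm (w⁻¹ (sp n 1))).succ 0)) = 0 := by
      have e1 : ∀ i : Fin (n + 4 + 1), b s (insF w i 0) = b ((swap 0 2 * swap 1 3 : Perm (Fin 4)) s)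
          (insF (pq (1 : Perm (Fin n)) (swap 0 2 * swap 1 3 : Perm (Fin 4)) * w : Perm (Fin (n + 4))) i
            (0 : Fin (n + 4 + 1))) := by
        intro i
        rw [← pg_insF, hb.symP]
        congr 1
        exact (by decide : ∀ s : Fin 4, s = (swap 0 2 * swap 1 3 : Perm (Fin 4))
          ((swap 0 2 * swap 1 3 : Perm (Fin 4)) s)) s
      have e2 : ∀ r : Fin 4, (pq (1 : Perm (Fin n)) (swap 0 2 * swap 1 3 : Perm (Fin 4)) * w)⁻¹ (sp n r) =
          w⁻¹ (sp n ((swap 0 2 * swap 1 3 : Perm (Fin 4))⁻¹ r)) := by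
        intro r
        rw [mul_inv_rev, Perm.mul_apply, pq_inv]
        congr 1
        exact pq_r _ _ r
      have e3 : w⁻¹ (sp n 0) = (pq (1 : Perm (Fin n)) (swap 0 2 * swap 1 3 : Perm (Fin 4)) * w)⁻¹ (sp n 2) := by
        rw [e2]
        congr 2
      have e4 : w⁻¹ (sp n 1) = (pq (1 : Perm (Fin n)) (swap 0 2 * swap 1 3 : Perm (Fin 4)) * w)⁻¹ (sp n 3) := by
        rw [e2]
        congr 2
      rw [e1, e1, e1, e1, e3, e4]
      exact hb.tv _ _
    have hcase : (r = 0 ∧ r' = 1) ∨ (r = 1 ∧ r' = 0) ∨ (r = 2 ∧ r' = 3) ∨ (r = 3 ∧ r' = 2) := by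
      revert r r'
      decide
    rcases hcase with ⟨rfl, rfl⟩ | ⟨rfl, rfl⟩ | ⟨rfl, rfl⟩ | ⟨rfl, rfl⟩
    · exact k2
    · rw [add_comm]
      exact k2
    · exact k1
    · rw [add_comm]
      exact k1
  have h1 := key s
  have h2 := key t
  have h3 := congrArg₂ (· - ·) h1 h2
  simp only [sub_zero] at h3
  rw [← h3]
  abel

end

end Pool.Agent.SWT75
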