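import Pool.Agent.SWT75.Word

/-!
# Words with four special letters: the four values are equal
-/

set_option autoImplicit false

namespace Pool.Agent.SWT75

open Equiv Pool.Agent.SWT49 Pool.Agent.SWT80 Pool.Agent.SWT93 Pool.Agent.SWT65

variable {M : Type} {m n : ℕ}

/-- The position of the special letter `s`. -/
def ps (w : Perm (Fin (n + 4 + 1))) (s : Fin 4) : ℕ := (w⁻¹ (sq n s)).val

/-- The position of the special letter `s` in the shorter word. -/
def qs (w : Perm (Fin (n + 3 + 1))) (s : Fin 4) : ℕ := (w⁻¹ (sp n s)).val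

theorem ps_lt (w : Perm (Fin (n + 4 + 1))) (s : Fin 4) : ps w s < n + 4 + 1 :=
  (w⁻¹ (sq n s)).isLt

theorem qs_lt (w : Perm (Fin (n + 3 + 1))) (s : Fin 4) : qs w s < n + 3 + 1 :=
  (w⁻¹ (sp n s)).isLt

theorem ps_ne (w : Perm (Fin (n + 4 + 1))) {s t : Fin 4} (h : s ≠ t) : ps w s ≠ ps w t := by
  intro h1
  exact h (sq_inj (w⁻¹.injective (Fin.ext h1)))

theorem qs_ne (w : Perm (Fin (n + 3 + 1))) {s t : Fin 4} (h : s ≠ t) : qs w s ≠ qs w t := by
  intro h1
  exact h (sp_inj (w⁻¹.injective (Fin.ext h1)))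

theorem ps_ins (w : Perm (Fin (n + 3 + 1))) (i : Fin (n + 4 + 1)) (s : Fin 4) :
    ps (insF w i 0) s = if qs w s < i.val then qs w s else qs w s + 1 := by
  unfold ps qs
  rw [sq_sp, insF_inv_old, succAbove_val]

/-- The difference. -/
def Df [AddCommGroup M] (b : Fin 4 → Perm (Fin (n + 4 + 1)) → M) (s t : Fin 4)
    (w : Perm (Fin (n + 4 + 1))) : M := b s w - b t w

section

variable [AddCommGroup M] {b : Fin 4 → Perm (Fin (n + 4 + 1)) → M} (hb : Wd b)

include hb

theorem Wd.dep' {w w' : Perm (Fin (n + 4 + 1))} (h : ∀ s, ps w s = ps w' s)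
    (s t : Fin 4) : Df b s t w = Df b s t w' :=
  hb.dep (fun u => Fin.ext (h u)) s t

theorem Wd.del' {w : Perm (Fin (n + 4 + 1))} {p : Fin (n + 4 + 1)}
    (h : ∀ s, ps w s ≠ p.val) : ∃ w' : Perm (Fin (n + 3 + 1)),
      (∀ s t, Df b s t w = Df b s t (insF w' p 0)) ∧
      ∀ s, ps w s = if qs w' s < p.val then qs w' s else qs w' s + 1 := by
  obtain ⟨w', h1, h2⟩ := hb.del (p := p) (w := w) (fun s h' => h s (congrArg Fin.val h'))
  refine ⟨w', h1, fun s => ?_⟩
  unfold ps qs
  rw [h2, succAbove_val]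

theorem Wd.tv' {r r' : Fin 4} (hr : r.val / 2 = r'.val / 2) (hne : r ≠ r') (s t : Fin 4)
    (w : Perm (Fin (n + 3 + 1))) :
    ∃ i j i' j' : Fin (n + 4 + 1), i.val = qs w r + 1 ∧
      (j.val = if qs w r = 0 then n + 4 else qs w r) ∧ i'.val = qs w r' + 1 ∧
      (j'.val = if qs w r' = 0 then n + 4 else qs w r') ∧
      (Df b s t (insF w i 0) - Df b s t (insF w j 0)) +
        (Df b s t (insF w i' 0) - Df b s t (insF w j' 0)) = 0 :=
  ⟨_, _, _, _, rfl, prev_val _, rfl, prev_val _, hb.tvE hr hne s t w⟩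

/-- **Neighbours of different pairs**, the first one at the position `0`. -/
theorem Wd.nb {s s' t t' : Fin 4} (hs : s.val / 2 = s'.val / 2) (hss : s ≠ s')
    (hst : s.val / 2 ≠ t.val / 2) (hc : ∀ u, u = s ∨ u = s' ∨ u = t ∨ u = t') (d : ℕ) :
    ∀ w, ps w s = 0 → ps w t = d + 1 → d + 1 < ps w s' → d + 1 < ps w t' →
      Df b s t w = 0 := by
  induction d with
  | zero =>
    intro w h1 h2 _ _
    have h3 : b s w = b t w := by
      refine hb.adj s t w hst (Fin.ext ?_)
      rw [rot_val]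
      show ps w t = if ps w s = n + 4 then 0 else ps w s + 1
      rw [h1, h2, if_neg (by omega)]
    unfold Df
    rw [h3, sub_self]
  | succ d ih =>
    intro w h1 h2 h3 h4
    have hlt := ps_lt w t
    obtain ⟨p, hp⟩ : ∃ p : Fin (n + 4 + 1), p.val = 1 := ⟨⟨1, by omega⟩, rfl⟩
    obtain ⟨w', e1, e2⟩ := hb.del' (w := w) (p := p) (by
      intro u
      rcases hc u with rfl | rfl | rfl | rfl <;> omega)
    rw [e1]
    obtain ⟨i, j, i', j', hi, hj, hi', hj', htv⟩ := hb.tv' hs hss s t w'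
    have q1 : qs w' s = 0 := by
      have := e2 s
      split_ifs at this <;> omega
    have q2 : qs w' t = d + 1 := by
      have := e2 t
      split_ifs at this <;> omega
    have q3 : d + 1 < qs w' s' := by
      have := e2 s'
      split_ifs at this <;> omega
    have q4 : d + 1 < qs w' t' := by
      have := e2 t'
      split_ifs at this <;> omega
    have b1 := qs_lt w' s'
    have b2 := qs_lt w' t'
    have hip : i = p := Fin.ext (by rw [hi, hp, q1])
    rw [hip] at htv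
    have key : ∀ k : Fin (n + 4 + 1), d + 1 < k.val → Df b s t (insF w' k 0) = 0 := by
      intro k hk
      apply ih
      · rw [ps_ins, if_pos (by omega), q1]
      · rw [ps_ins, if_pos (by omega), q2]
      · rw [ps_ins]
        split_ifs <;> omega
      · rw [ps_ins]
        split_ifs <;> omega
    rw [key j (by rw [hj, if_pos q1]; omega), key i' (by omega),
      key j' (by rw [hj', if_neg (by omega)]; omega)] at htv
    rw [sub_zero, sub_zero, add_zero] at htv
    exact htv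

/-- The distance in the positive direction. -/
def ds (w : Perm (Fin (n + 4 + 1))) (s t : Fin 4) : ℕ :=
  if ps w s ≤ ps w t then ps w t - ps w s else n + 4 + 1 + ps w t - ps w s

omit hb in
theorem ps_rot (w : Perm (Fin (n + 4 + 1))) (s t : Fin 4) :
    ps (w * Equiv.addRight (w⁻¹ (sq n s))) t = ds w s t := by
  unfold ps ds
  have h1 : (w * Equiv.addRight (w⁻¹ (sq n s)))⁻¹ (sq n t) = w⁻¹ (sq n t) - w⁻¹ (sq n s) := by
    rw [Perm.inv_eq_iff_eq, Perm.mul_apply]
    show _ = w (w⁻¹ (sq n t) - w⁻¹ (sq n s) + w⁻¹ (sq n s))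
    rw [sub_add_cancel]
    exact (w.apply_symm_apply _).symm
  rw [h1, sub_val]
  rfl

theorem Wd.df_rot (a : Fin (n + 4 + 1)) (s t : Fin 4) (w : Perm (Fin (n + 4 + 1))) :
    Df b s t (w * Equiv.addRight a) = Df b s t w := by
  unfold Df
  rw [hb.rotA, hb.rotA]

/-- **Neighbours of different pairs.** -/
theorem Wd.nbr {s s' t t' : Fin 4} (hs : s.val / 2 = s'.val / 2) (hss : s ≠ s')
    (hst : s.val / 2 ≠ t.val / 2) (hc : ∀ u, u = s ∨ u = s' ∨ u = t ∨ u = t')
    (w : Perm (Fin (n + 4 + 1))) (h1 : ds w s t < ds w s s') (h2 : ds w s t < ds w s t') :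
    b s w = b t w := by
  have h0 : s ≠ t := fun h => hst (by rw [h])
  have h3 := ps_ne w h0
  have h4 := ps_lt w s
  have h5 := ps_lt w t
  obtain ⟨d, hd⟩ : ∃ d, ds w s t = d + 1 := by
    refine ⟨ds w s t - 1, ?_⟩
    unfold ds
    split_ifs <;> omega
  have h6 := hb.nb hs hss hst hc d (w * Equiv.addRight (w⁻¹ (sq n s)))
    (by rw [ps_rot]; unfold ds; rw [if_pos le_rfl, Nat.sub_self]) (by rw [ps_rot, hd])
    (by rw [ps_rot, ← hd]; exact h1) (by rw [ps_rot, ← hd]; exact h2)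
  rw [hb.df_rot] at h6
  exact sub_eq_zero.1 h6

/-! ### The two letters of a pair -/

/-- The letters `t`, `t'` are shifted to the left. -/
theorem Wd.sh1 {s s' t t' : Fin 4} (ht : t.val / 2 = t'.val / 2) (htt : t ≠ t')
    (hc : ∀ u, u = s ∨ u = s' ∨ u = t ∨ u = t') (w : Perm (Fin (n + 4 + 1)))
    (h1 : ps w s = 0) (h2 : ps w s' + 1 < ps w t) (h3 : ps w t < ps w t') (h4 : 0 < ps w s') :
    ∃ w', Df b s s' w = Df b s s' w' ∧ ps w' s = 0 ∧ ps w' s' = ps w s' ∧
      ps w t = ps w' t + 1 ∧ ps w t' = ps w' t' + 1 := by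
  have hlt := ps_lt w t
  have hlt' := ps_lt w t'
  obtain ⟨p, hp⟩ : ∃ p : Fin (n + 4 + 1), p.val = ps w t - 1 := ⟨⟨ps w t - 1, by omega⟩, rfl⟩
  obtain ⟨w', e1, e2⟩ := hb.del' (w := w) (p := p) (by
    intro u
    rcases hc u with rfl | rfl | rfl | rfl <;> omega)
  obtain ⟨i, j, i', j', hi, hj, hi', hj', htv⟩ := hb.tv' ht htt s s' w'
  have q1 : qs w' s = 0 := by
    have := e2 s
    split_ifs at this <;> omega
  have q2 : qs w' s' = ps w s' := by
    have := e2 s'
    split_ifs at this <;> omega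
  have q3 : ps w t = qs w' t + 1 := by
    have := e2 t
    split_ifs at this <;> omega
  have q4 : ps w t' = qs w' t' + 1 := by
    have := e2 t'
    split_ifs at this <;> omega
  have hjp : j = p := Fin.ext (by rw [hj, hp, if_neg (by omega)]; omega)
  have hval : ∀ (k : Fin (n + 4 + 1)) u, ps (insF w' k 0) u =
      if qs w' u < k.val then qs w' u else qs w' u + 1 := fun k u => ps_ins w' k u
  have hj'' : j'.val = qs w' t' := by rw [hj', if_neg (by omega)]
  have e3 : Df b s s' (insF w' i 0) = Df b s s' (insF w' j' 0) := by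
    refine hb.dep' (fun u => ?_) s s'
    rw [hval, hval]
    rcases hc u with rfl | rfl | rfl | rfl <;> split_ifs <;> omega
  refine ⟨insF w' i' 0, ?_, ?_, ?_, ?_, ?_⟩
  · rw [e1, ← hjp]
    rw [e3] at htv
    have h5 : Df b s s' (insF w' i' 0) - Df b s s' (insF w' j 0) = 0 := by
      rw [← htv]
      abel
    exact (sub_eq_zero.1 h5).symm
  · rw [hval, if_pos (by omega), q1]
  · rw [hval, if_pos (by omega), q2]
  · rw [hval, if_pos (by omega), q3]
  · rw [hval, if_pos (by omega), q4]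

theorem Wd.sh {s s' t t' : Fin 4} (ht : t.val / 2 = t'.val / 2) (htt : t ≠ t')
    (hc : ∀ u, u = s ∨ u = s' ∨ u = t ∨ u = t') (w₁ : Perm (Fin (n + 4 + 1)))
    (h1 : ps w₁ s = 0) (h2 : ps w₁ s' < ps w₁ t) (h3 : ps w₁ t < ps w₁ t') (h4 : 0 < ps w₁ s')
    (k : ℕ) : ∀ w, ps w s = 0 → ps w s' = ps w₁ s' → ps w t = ps w₁ t + k →
      ps w t' = ps w₁ t' + k → Df b s s' w = Df b s s' w₁ := by
  induction k with
  | zero =>
    intro w k1 k2 k3 k4
    refine hb.dep' (fun u => ?_) s s'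
    rcases hc u with rfl | rfl | rfl | rfl <;> omega
  | succ k ih =>
    intro w k1 k2 k3 k4
    obtain ⟨w', e1, e2, e3, e4, e5⟩ := hb.sh1 ht htt hc w k1 (by omega) (by omega) (by omega)
    rw [e1]
    exact ih w' e2 (by omega) (by omega) (by omega)

end

end Pool.Agent.SWT75
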