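import Pool.Agent.SWT75.Word2

/-!
# Words with four special letters: the four values are equal
-/

set_option autoImplicit false

namespace Pool.Agent.SWT75

open Equiv Pool.Agent.SWT49 Pool.Agent.SWT80 Pool.Agent.SWT93 Pool.Agent.SWT65

variable {M : Type} {m n : ℕ}

/-- The other letter of the pair. -/
theorem partner {s s' : Fin 4} (hs : s.val / 2 = s'.val / 2) (hss : s ≠ s') :
    swap 2 3 (swap 0 1 s) = s' ∧ (swap 2 3 : Perm (Fin 4))⁻¹ ((swap 0 1 : Perm (Fin 4))⁻¹ s) = s' := by
  revert s s'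
  decide

theorem ps_refl (w : Perm (Fin (n + 4 + 1))) (x : Fin (n + 4 + 1)) (t : Fin 4) :
    ps (w * Equiv.subLeft x) t =
      if ps w t ≤ x.val then x.val - ps w t else n + 4 + 1 + x.val - ps w t := by
  unfold ps
  have h1 : (w * Equiv.subLeft x)⁻¹ (sq n t) = x - w⁻¹ (sq n t) := by
    rw [Perm.inv_eq_iff_eq, Perm.mul_apply]
    show _ = w (x - (x - w⁻¹ (sq n t)))
    rw [sub_sub_cancel]
    exact (w.apply_symm_apply _).symm
  rw [h1, sub_val]

theorem ps_pg (w : Perm (Fin (n + 4 + 1))) (π : Perm (Fin 4)) (t : Fin 4) :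
    ps (pg 1 π * w) t = ps w (π⁻¹ t) := by
  unfold ps
  rw [pg_pos]

section

variable [AddCommGroup M] {b : Fin 4 → Perm (Fin (n + 4 + 1)) → M} (hb : Wd b)

include hb

/-- **The two letters of a pair**, the first one at the position `0`. -/
theorem Wd.pr {s s' t t' : Fin 4} (hs : s.val / 2 = s'.val / 2) (hss : s ≠ s')
    (ht : t.val / 2 = t'.val / 2) (htt : t ≠ t') (hc : ∀ u, u = s ∨ u = s' ∨ u = t ∨ u = t')
    (h2 : ∀ v : M, v + v = 0 → v = 0) (w : Perm (Fin (n + 4 + 1)))
    (k1 : ps w s = 0) (k2 : 0 < ps w s') (k3 : ps w s' < ps w t) (k4 : ps w t < ps w t') :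
    Df b s s' w = 0 := by
  obtain ⟨w₃, hw₃⟩ : ∃ w₃, w₃ = pg (1 : Perm (Fin (n + 1))) (swap 0 1) *
      (pg 1 (swap 2 3) * (w * Equiv.subLeft (w⁻¹ (sq n s')))) := ⟨_, rfl⟩
  have e1 : Df b s s' w₃ = - Df b s s' w := by
    unfold Df
    rw [hw₃, hb.sym01, hb.sym01, hb.sym23, hb.sym23, hb.reflA, hb.reflA, (partner hs hss).1,
      (partner hs.symm hss.symm).1]
    abel
  have hlt := ps_lt w t'
  have e2 : ∀ u u' : Fin 4, u.val / 2 = u'.val / 2 → u ≠ u' → ps w₃ u =
      if ps w u' ≤ ps w s' then ps w s' - ps w u' else n + 4 + 1 + ps w s' - ps w u' := by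
    intro u u' h h'
    rw [hw₃, ps_pg, ps_pg, ps_refl, (partner h h').2]
    rfl
  have p1 : ps w₃ s = 0 := by
    rw [e2 s s' hs hss, if_pos le_rfl, Nat.sub_self]
  have p2 : ps w₃ s' = ps w s' := by
    rw [e2 s' s hs.symm hss.symm, if_pos (by omega), k1, Nat.sub_zero]
  have p3 : ps w₃ t = n + 4 + 1 + ps w s' - ps w t' := by
    rw [e2 t t' ht htt, if_neg (by omega)]
  have p4 : ps w₃ t' = n + 4 + 1 + ps w s' - ps w t := by
    rw [e2 t' t ht.symm htt.symm, if_neg (by omega)]
  have e3 : Df b s s' w₃ = Df b s s' w := by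
    by_cases h : ps w t ≤ ps w₃ t
    · exact hb.sh ht htt hc w k1 k3 k4 k2 (ps w₃ t - ps w t) w₃ p1 p2 (by omega) (by omega)
    · exact (hb.sh ht htt hc w₃ p1 (by omega) (by omega) (by omega) (ps w t - ps w₃ t) w k1
        p2.symm (by omega) (by omega)).symm
  apply h2
  nth_rewrite 1 [← e3]
  rw [e1]
  exact neg_add_cancel _

/-- **The two letters of a pair.** -/
theorem Wd.prr {s s' t t' : Fin 4} (hs : s.val / 2 = s'.val / 2) (hss : s ≠ s')
    (ht : t.val / 2 = t'.val / 2) (htt : t ≠ t') (hc : ∀ u, u = s ∨ u = s' ∨ u = t ∨ u = t')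
    (h2 : ∀ v : M, v + v = 0 → v = 0) (w : Perm (Fin (n + 4 + 1)))
    (k3 : ds w s s' < ds w s t) (k4 : ds w s t < ds w s t') : b s w = b s' w := by
  have h3 := ps_ne w hss
  have h4 := ps_lt w s
  have h5 := ps_lt w s'
  have h6 := hb.pr hs hss ht htt hc h2 (w * Equiv.addRight (w⁻¹ (sq n s)))
    (by rw [ps_rot]; unfold ds; rw [if_pos le_rfl, Nat.sub_self])
    (by rw [ps_rot]; unfold ds; split_ifs <;> omega)
    (by rw [ps_rot, ps_rot]; exact k3) (by rw [ps_rot, ps_rot]; exact k4)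
  rw [hb.df_rot] at h6
  exact sub_eq_zero.1 h6

/-- The cyclic order of the four letters. -/
def Od (w : Perm (Fin (n + 4 + 1))) (s t u v : Fin 4) : Prop :=
  ds w s t < ds w s u ∧ ds w s u < ds w s v

omit hb in
theorem Od.rot {w : Perm (Fin (n + 4 + 1))} {s t u v : Fin 4} (h1 : s ≠ t)
    (h : Od w s t u v) : Od w t u v s := by
  obtain ⟨a1, a2⟩ := h
  have n1 := ps_ne w h1
  have l0 := ps_lt w s
  have l1 := ps_lt w t
  have l2 := ps_lt w u
  have l3 := ps_lt w v
  unfold Od
  unfold ds at a1 a2 ⊢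
  generalize ps w s = x at *
  generalize ps w t = y at *
  generalize ps w u = z at *
  generalize ps w v = k at *
  by_cases c1 : x ≤ y <;> by_cases c2 : x ≤ z <;> by_cases c3 : x ≤ k <;>
    simp only [c1, c2, c3, if_true, if_false] at a1 a2 <;> constructor <;> split_ifs <;> omega

/-- **The four values are equal.** -/
theorem Wd.all (h2 : ∀ v : M, v + v = 0 → v = 0) (s : Fin 4) (w : Perm (Fin (n + 4 + 1))) :
    b s w = b 0 w := by
  -- neighbours of different pairs
  have hA : ∀ s t u v : Fin 4, s.val / 2 ≠ t.val / 2 → (∀ x, x = s ∨ x = t ∨ x = u ∨ x = v) →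
      u ≠ v → Od w s t u v → b s w = b t w := by
    intro s t u v a1 a2 a3 ⟨a4, a5⟩
    by_cases hu : s.val / 2 = u.val / 2
    · refine hb.nbr (s' := u) (t' := v) hu ?_ a1 ?_ w a4 (a4.trans a5)
      · rintro rfl
        have h3 : ∀ s t v : Fin 4, (∀ x, x = s ∨ x = t ∨ x = s ∨ x = v) → False := by decide
        exact h3 s t v a2
      · intro x
        rcases a2 x with h | h | h | h
        · exact Or.inl h
        · exact Or.inr (Or.inr (Or.inl h))
        · exact Or.inr (Or.inl h)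
        · exact Or.inr (Or.inr (Or.inr h))
    · have hv : s.val / 2 = v.val / 2 ∧ s ≠ v := by
        clear a4 a5
        revert s t u v
        decide
      refine hb.nbr (s' := v) (t' := u) hv.1 hv.2 a1 ?_ w (a4.trans a5) a4
      intro x
      rcases a2 x with h | h | h | h
      · exact Or.inl h
      · exact Or.inr (Or.inr (Or.inl h))
      · exact Or.inr (Or.inr (Or.inr h))
      · exact Or.inr (Or.inl h)
  have hB : ∀ s s' t t' : Fin 4, s.val / 2 = s'.val / 2 → s ≠ s' → t.val / 2 = t'.val / 2 →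
      t ≠ t' → (∀ u, u = s ∨ u = s' ∨ u = t ∨ u = t') → Od w s s' t t' → b s w = b s' w :=
    fun s s' t t' a1 a2 a3 a4 a5 a6 => hb.prr a1 a2 a3 a4 a5 h2 w a6.1 a6.2
  have n01 := ps_ne w (s := 0) (t := 1) (by decide)
  have n02 := ps_ne w (s := 0) (t := 2) (by decide)
  have n03 := ps_ne w (s := 0) (t := 3) (by decide)
  have n12 := ps_ne w (s := 1) (t := 2) (by decide)
  have n13 := ps_ne w (s := 1) (t := 3) (by decide)
  have n23 := ps_ne w (s := 2) (t := 3) (by decide)
  have l0 := ps_lt w 0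
  have l1 := ps_lt w 1
  have l2 := ps_lt w 2
  have l3 := ps_lt w 3
  suffices h : b 1 w = b 0 w ∧ b 2 w = b 0 w ∧ b 3 w = b 0 w by
    obtain ⟨h1, h2, h3⟩ := h
    revert s
    exact t4 rfl h1 h2 h3
  have hd : ∀ u v : Fin 4, u ≠ v → ds w 0 u ≠ ds w 0 v := by
    intro u v h h1
    have k0 := ps_ne w h
    have k1 := ps_lt w u
    have k2 := ps_lt w v
    unfold ds at h1
    split_ifs at h1 <;> omega
  have m12 := hd 1 2 (by decide)
  have m13 := hd 1 3 (by decide)
  have m23 := hd 2 3 (by decide)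
  have c1 : ∀ x : Fin 4, x = 0 ∨ x = 1 ∨ x = 2 ∨ x = 3 := by decide
  rcases lt_or_gt_of_ne m12 with u1 | u1 <;> rcases lt_or_gt_of_ne m13 with u2 | u2 <;>
    rcases lt_or_gt_of_ne m23 with u3 | u3
  · -- 0 1 2 3
    have o : Od w 0 1 2 3 := ⟨u1, u3⟩
    have o1 := o.rot (by decide)
    have o3 := (o1.rot (by decide)).rot (by decide)
    have r1 := hB 0 1 2 3 (by decide) (by decide) (by decide) (by decide) (by decide) o
    have r2 := hA 1 2 3 0 (by decide) (by decide) (by decide) o1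
    have r3 := hA 3 0 1 2 (by decide) (by decide) (by decide) o3
    exact ⟨r1.symm, r2.symm.trans r1.symm, r3⟩
  · -- 0 1 3 2
    have o : Od w 0 1 3 2 := ⟨u2, u3⟩
    have o1 := o.rot (by decide)
    have o3 := (o1.rot (by decide)).rot (by decide)
    have r1 := hB 0 1 3 2 (by decide) (by decide) (by decide) (by decide) (by decide) o
    have r2 := hA 1 3 2 0 (by decide) (by decide) (by decide) o1
    have r3 := hA 2 0 1 3 (by decide) (by decide) (by decide) o3
    exact ⟨r1.symm, r3, r2.symm.trans r1.symm⟩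
  · omega
  · -- 0 3 1 2
    have o : Od w 0 3 1 2 := ⟨u2, u1⟩
    have o2 := (o.rot (by decide)).rot (by decide)
    have r1 := hA 0 3 1 2 (by decide) (by decide) (by decide) o
    have r2 := hA 3 1 2 0 (by decide) (by decide) (by decide) (o.rot (by decide))
    have r3 := hA 1 2 0 3 (by decide) (by decide) (by decide) o2
    have r4 : b 1 w = b 0 w := (r1.trans r2).symm
    exact ⟨r4, r3.symm.trans r4, r1.symm⟩
  · -- 0 2 1 3
    have o : Od w 0 2 1 3 := ⟨u1, u2⟩
    have o1 := o.rot (by decide)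
    have o2 := o1.rot (by decide)
    have r1 := hA 0 2 1 3 (by decide) (by decide) (by decide) o
    have r2 := hA 2 1 3 0 (by decide) (by decide) (by decide) o1
    have r3 := hA 1 3 0 2 (by decide) (by decide) (by decide) o2
    have r4 : b 1 w = b 0 w := (r1.trans r2).symm
    exact ⟨r4, r1.symm, r3.symm.trans r4⟩
  · omega
  · -- 0 2 3 1
    have o : Od w 0 2 3 1 := ⟨u3, u2⟩
    have o1 := o.rot (by decide)
    have o2 := o1.rot (by decide)
    have o3 := o2.rot (by decide)
    have r1 := hA 0 2 3 1 (by decide) (by decide) (by decide) o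
    have r2 := hA 3 1 0 2 (by decide) (by decide) (by decide) o2
    have r3 := hB 1 0 2 3 (by decide) (by decide) (by decide) (by decide) (by decide) o3
    exact ⟨r3, r1.symm, r2.trans r3⟩
  · -- 0 3 2 1
    have o : Od w 0 3 2 1 := ⟨u3, u1⟩
    have o1 := o.rot (by decide)
    have o2 := o1.rot (by decide)
    have o3 := o2.rot (by decide)
    have r1 := hA 0 3 2 1 (by decide) (by decide) (by decide) o
    have r2 := hA 2 1 0 3 (by decide) (by decide) (by decide) o2
    have r3 := hB 1 0 3 2 (by decide) (by decide) (by decide) (by decide) (by decide) o3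
    exact ⟨r3, r2.trans r3, r1.symm⟩

end

end Pool.Agent.SWT75
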